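import Pool.Agent.MP_9ab903_nt.SB.SDefs
import Pool.Agent.MP_ae0bd0_nt.CM.R1

set_option autoImplicit false

open Polynomial NumberField IsDedekindDomain
open scoped Classical

namespace CM27

/-! ## [SBS-A1] the square of `r` (file A1.lean) -/

theorem a1_equation {K : Type} [Field K] {x y : K} (h : (E K).toAffine.Nonsingular x y) :
    (2 * y + 1) ^ 2 = 4 * x ^ 3 + 1 := by
  have h1 := h.1
  rw [WeierstrassCurve.Affine.equation_iff] at h1
  have h2 : y ^ 2 + y = x ^ 3 := by simpa [E] using h1
  linear_combination 4 * h2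

theorem a1_negY {K : Type} [Field K] (x y : K) : (E K).toAffine.negY x y = -y - 1 := by
  simp only [WeierstrassCurve.Affine.negY, E]
  ring

theorem a1_trip_mul {K : Type} [Field K] (a b c a' b' c' : K) :
    trip a b c * trip a' b' c' =
      trip (a * a' + 2 * (b * c' + c * b')) (a * b' + b * a' + 2 * (c * c'))
        (a * c' + b * b' + c * a') := by
  have h := pr_pow K
  simp only [trip, map_add, map_mul, map_ofNat]
  linear_combination ((algebraMap K (R K) b * algebraMap K (R K) c' +
    algebraMap K (R K) c * algebraMap K (R K) b') +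
    algebraMap K (R K) c * algebraMap K (R K) c' * pr K) * h

theorem a1_trip_one {K : Type} [Field K] : trip (1 : K) 0 0 = 1 := by
  simp [trip]

theorem a1_rOf_zero {K : Type} [Field K] : rOf (0 : (E K).toAffine.Point) = 1 := rfl

theorem a1_zOf_zero {K : Type} [Field K] : zOf (0 : (E K).toAffine.Point) = 1 := rfl

theorem a1_x_ne {K : Type} [Field K] [CharZero K] {x y : K}
    (h : (E K).toAffine.Nonsingular x y) (h0 : 2 * y + 1 = 0) : x ≠ 0 := by
  rintro rfl
  have h1 := a1_equation h
  rw [h0] at h1
  norm_num at h1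

/-- the double of a point which is not of order `2` -/
theorem a1_double {K : Type} [Field K] [CharZero K] {x y : K}
    (h : (E K).toAffine.Nonsingular x y) (h0 : 2 * y + 1 ≠ 0) :
    ∃ (y2 : K) (h2 : (E K).toAffine.Nonsingular ((x ^ 4 - 2 * x) / (2 * y + 1) ^ 2) y2),
      2 • (WeierstrassCurve.Affine.Point.some x y h) =
        .some ((x ^ 4 - 2 * x) / (2 * y + 1) ^ 2) y2 h2 := by
  have hy : y ≠ (E K).toAffine.negY x y := by
    rw [a1_negY]
    intro h4
    apply h0
    linear_combination h4
  have hdbl := WeierstrassCurve.Affine.Point.add_self_of_Y_ne (h₁ := h) hy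
  have hX : (E K).toAffine.addX x x ((E K).toAffine.slope x x y y)
      = (x ^ 4 - 2 * x) / (2 * y + 1) ^ 2 := by
    rw [WeierstrassCurve.Affine.slope_of_Y_ne rfl hy]
    simp only [WeierstrassCurve.Affine.addX, WeierstrassCurve.Affine.negY, E]
    have h6 : y - (-y - 0 * x - 1) = 2 * y + 1 := by ring
    rw [h6]
    have h7 := a1_equation h
    field_simp
    linear_combination (-2 : K) * x * h7
  have hns := WeierstrassCurve.Affine.nonsingular_add h h (fun hxy => hy hxy.right)
  have h8 : ∀ (X Y : K) (hXY : (E K).toAffine.Nonsingular X Y)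
      (hE : X = (x ^ 4 - 2 * x) / (2 * y + 1) ^ 2), ∃ (y2 : K)
      (h2 : (E K).toAffine.Nonsingular ((x ^ 4 - 2 * x) / (2 * y + 1) ^ 2) y2),
      WeierstrassCurve.Affine.Point.some X Y hXY =
        .some ((x ^ 4 - 2 * x) / (2 * y + 1) ^ 2) y2 h2 := by
    intro X Y hXY hE
    subst hE
    exact ⟨Y, hXY, rfl⟩
  rw [two_nsmul, hdbl]
  exact h8 _ _ _ hX

theorem a1_two_tors {K : Type} [Field K] {x y : K}
    (h : (E K).toAffine.Nonsingular x y) (h0 : 2 * y + 1 = 0) :
    2 • (WeierstrassCurve.Affine.Point.some x y h) = 0 := by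
  rw [two_nsmul]
  apply WeierstrassCurve.Affine.Point.add_of_Y_eq rfl
  rw [a1_negY]
  linear_combination h0

theorem rOf_sq {K : Type} [Field K] [CharZero K] (B : (E K).toAffine.Point) :
    rOf B ^ 2 = zOf (2 • B) := by
  cases B with
  | zero =>
    have h0 : (WeierstrassCurve.Affine.Point.zero : (E K).toAffine.Point) = 0 := rfl
    rw [h0, smul_zero, a1_rOf_zero, a1_zOf_zero, one_pow]
  | some x y h =>
    by_cases h0 : 2 * y + 1 = 0
    · rw [a1_two_tors h h0, a1_zOf_zero]
      have hx := a1_x_ne h h0
      have h1 := a1_equation h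
      rw [h0] at h1
      have h2 : 4 * x ^ 3 + 1 = 0 := by linear_combination -h1
      simp only [rOf, if_pos h0]
      rw [sq, a1_trip_mul, ← a1_trip_one]
      congr 1
      · field_simp
        linear_combination (-12 : K) * h2
      · field_simp
        linear_combination (18 : K) * h2
      · field_simp
        ring
    · obtain ⟨y2, h2, h3⟩ := a1_double h h0
      rw [h3]
      simp only [rOf, if_neg h0, zOf]
      have h1 := a1_equation h
      rw [sq, a1_trip_mul]
      congr 1
      · field_simp
        linear_combination -h1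
      · field_simp
        ring
      · field_simp
        ring

end CM27
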