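import Pool.Agent.MP_9ab903_nt.SB.SDefs
import Pool.Agent.MP_ae0bd0_nt.CM.R1

set_option autoImplicit false

open Polynomial NumberField IsDedekindDomain
open scoped Classical

namespace CM27

/-! ## [SBS-A2] translation by a point of order `2` (file A2.lean) -/

theorem a2_trip_mul {K : Type} [Field K] (a b c a' b' c' : K) :
    trip a b c * trip a' b' c' =
      trip (a * a' + 2 * b * c' + 2 * c * b') (a * b' + b * a' + 2 * c * c')
        (a * c' + c * a' + b * b') := by
  have h := pr_pow K
  simp only [trip, map_add, map_mul]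
  have h2 : (algebraMap K (R K)) 2 = 2 := map_ofNat _ 2
  rw [h2]
  linear_combination (algebraMap K (R K) b * algebraMap K (R K) c' +
    algebraMap K (R K) c * algebraMap K (R K) b' +
    algebraMap K (R K) c * algebraMap K (R K) c' * pr K) * h

theorem a2_trip_one {K : Type} [Field K] : trip (1:K) 0 0 = 1 := by
  simp [trip]

theorem a2_eq {K : Type} [Field K] {x y : K} (h : (E K).toAffine.Nonsingular x y) :
    y ^ 2 + y = x ^ 3 := by
  have h1 := (WeierstrassCurve.Affine.equation_iff ..).1 h.1
  simp only [E] at h1
  linear_combination h1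

theorem a2_negY {K : Type} [Field K] (x y : K) : (E K).toAffine.negY x y = -y - 1 := by
  simp [WeierstrassCurve.Affine.negY, E]

theorem a2_order {K : Type} [Field K] [CharZero K] {t s : K}
    (h : (E K).toAffine.Nonsingular t s)
    (hT : 2 • (WeierstrassCurve.Affine.Point.some t s h) = 0) : 2 * s + 1 = 0 := by
  by_contra hs
  have hy : s ≠ (E K).toAffine.negY t s := by
    rw [a2_negY]
    intro h1
    apply hs
    linear_combination h1
  rw [two_nsmul, WeierstrassCurve.Affine.Point.add_self_of_Y_ne hy] at hT
  exact WeierstrassCurve.Affine.Point.some_ne_zero _ hT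

theorem a2_order_iff {K : Type} [Field K] [CharZero K] {t s : K}
    (h : (E K).toAffine.Nonsingular t s) (hs : 2 * s + 1 = 0) :
    s = -1 / 2 ∧ 4 * t ^ 3 = -1 ∧ t ≠ 0 := by
  have h1 := a2_eq h
  have h2 : s = -1 / 2 := by linear_combination hs / 2
  have h3 : 4 * t ^ 3 = -1 := by
    rw [h2] at h1
    linear_combination (-4) * h1
  refine ⟨h2, h3, ?_⟩
  rintro rfl
  norm_num at h3

theorem a2_rOf_zero {K : Type} [Field K] : rOf (0 : (E K).toAffine.Point) = 1 := rfl

theorem a2_rOf_tors {K : Type} [Field K] {x y : K} (h : (E K).toAffine.Nonsingular x y)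
    (hy : 2 * y + 1 = 0) :
    rOf (.some x y h) = trip (-1 / 3) (-1 / (3 * x)) (1 / (6 * x ^ 2)) := by
  simp only [rOf, if_pos hy]

theorem a2_rOf_some {K : Type} [Field K] {x y : K} (h : (E K).toAffine.Nonsingular x y)
    (hy : 2 * y + 1 ≠ 0) :
    rOf (.some x y h) = trip (1 / (2 * y + 1)) (-x ^ 2 / (2 * y + 1)) (-x / (2 * y + 1)) := by
  simp only [rOf, if_neg hy]

theorem rOf_add {K : Type} [Field K] [CharZero K] (B T : (E K).toAffine.Point) (hT : 2 • T = 0) :
    rOf (B + T) = rOf B * rOf T := by
  rcases T with _ | ⟨t, s, hts⟩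
  · change rOf (B + 0) = rOf B * rOf 0
    rw [add_zero, a2_rOf_zero, mul_one]
  rcases B with _ | ⟨x, y, hxy⟩
  · change rOf (0 + _) = rOf 0 * rOf _
    rw [zero_add, a2_rOf_zero, one_mul]
  have hs := a2_order hts hT
  obtain ⟨hs', ht3, ht0⟩ := a2_order_iff hts hs
  have he := a2_eq hxy
  rw [a2_rOf_tors hts hs]
  by_cases hy : 2 * y + 1 = 0
  · obtain ⟨hy', hx3, hx0⟩ := a2_order_iff hxy hy
    rw [a2_rOf_tors hxy hy, a2_trip_mul]
    by_cases hxt : x = t
    · -- `B = T`
      have h0 : WeierstrassCurve.Affine.Point.some x y hxy +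
          WeierstrassCurve.Affine.Point.some t s hts = 0 := by
        apply WeierstrassCurve.Affine.Point.add_of_Y_eq hxt
        rw [a2_negY, hy', hs']
        norm_num
      rw [h0, a2_rOf_zero, ← a2_trip_one]
      subst hxt
      congr 1
      · field_simp
        linear_combination (12 : K) * ht3
      · field_simp
        linear_combination (-18 : K) * ht3
      · field_simp
        ring
    · rw [WeierstrassCurve.Affine.Point.add_of_X_ne hxt]
      have hsl : (E K).toAffine.slope x t y s = 0 := by
        rw [WeierstrassCurve.Affine.slope_of_X_ne hxt, hy', hs', sub_self, zero_div]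
      have hX : (E K).toAffine.addX x t ((E K).toAffine.slope x t y s) = -x - t := by
        rw [hsl]
        simp only [WeierstrassCurve.Affine.addX, E]
        ring
      have hY : (E K).toAffine.addY x t y ((E K).toAffine.slope x t y s) = -1 / 2 := by
        rw [WeierstrassCurve.Affine.addY, a2_negY, WeierstrassCurve.Affine.negAddY, hX, hsl, hy']
        norm_num
      have hq : x ^ 2 + x * t + t ^ 2 = 0 := by
        apply mul_left_cancel₀ (sub_ne_zero.2 hxt)
        linear_combination (1 / 4 : K) * hx3 - (1 / 4 : K) * ht3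
      have hx30 : -x - t ≠ 0 := by
        intro h
        have h1 : x = -t := by linear_combination -h
        rw [h1] at hq
        have h2 : t ^ 2 = 0 := by linear_combination hq
        exact ht0 (pow_eq_zero_iff (two_ne_zero) |>.1 h2)
      rw [a2_rOf_tors _ (by rw [hY]; norm_num), hX]
      congr 1
      · field_simp
        linear_combination (-24 * t ^ 2) * hq + 6 * (x + t) * ht3
      · field_simp
        linear_combination (36 * x * t - 72 * t ^ 2) * hq + 18 * (x + t) * ht3
      · field_simp
        linear_combination (3 * (x ^ 2 + x * t + t ^ 2) - 6 * x * t) * hq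
  · have hxt : x ≠ t := by
      rintro rfl
      apply hy
      have h1 : (2 * y + 1) ^ 2 = 0 := by linear_combination 4 * he + ht3
      exact pow_eq_zero_iff (two_ne_zero) |>.1 h1
    have hd : x - t ≠ 0 := sub_ne_zero.2 hxt
    rw [a2_rOf_some hxy hy, a2_trip_mul, WeierstrassCurve.Affine.Point.add_of_X_ne hxt]
    have hsl : (E K).toAffine.slope x t y s = (2 * y + 1) / (2 * (x - t)) := by
      rw [WeierstrassCurve.Affine.slope_of_X_ne hxt, hs']
      field_simp
      ring
    have hY2 : (2 * y + 1) ^ 2 = 4 * (x ^ 3 - t ^ 3) := by linear_combination 4 * he + ht3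
    have hX : (E K).toAffine.addX x t ((E K).toAffine.slope x t y s) =
        t * (x + 2 * t) / (x - t) := by
      rw [hsl]
      simp only [WeierstrassCurve.Affine.addX, E]
      field_simp
      linear_combination hY2
    have hY : 2 * (E K).toAffine.addY x t y ((E K).toAffine.slope x t y s) + 1 =
        -3 * t ^ 2 * (2 * y + 1) / (x - t) ^ 2 := by
      rw [WeierstrassCurve.Affine.addY, a2_negY, WeierstrassCurve.Affine.negAddY, hX, hsl]
      field_simp
      ring
    have hY0 : 2 * (E K).toAffine.addY x t y ((E K).toAffine.slope x t y s) + 1 ≠ 0 := by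
      rw [hY]
      have h3 : (-3 : K) ≠ 0 := by norm_num
      exact div_ne_zero (mul_ne_zero (mul_ne_zero h3 (pow_ne_zero 2 ht0)) hy) (pow_ne_zero 2 hd)
    rw [a2_rOf_some _ hY0, hY, hX]
    have h3 : (3 : K) ≠ 0 := by norm_num
    congr 1
    · field_simp
      ring
    · field_simp
      linear_combination 6 * (x + t) * ht3
    · field_simp
      linear_combination (-3 : K) * ht3

end CM27
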