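import Pool.Agent.MP_9ab903_nt.SB.Z
import Pool.Agent.MP_9ab903_nt.SB.A1
import Pool.Agent.MP_9ab903_nt.SB.A2

set_option autoImplicit false

open Polynomial NumberField IsDedekindDomain
open scoped Classical

namespace CM27

/-! ## [SBS-L] the local conditions (file L.lean) -/

theorem l_mapR_injective {K L : Type} [Field K] [Field L] (f : K →+* L) :
    Function.Injective (mapR f) := by
  intro z z' h
  obtain ⟨a, b, c, rfl⟩ := trip_surj z
  obtain ⟨a', b', c', rfl⟩ := trip_surj z'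
  rw [mapR_trip, mapR_trip] at h
  obtain ⟨h1, h2, h3⟩ := trip_inj h
  rw [f.injective h1, f.injective h2, f.injective h3]

theorem l_mapR_comp {K L M : Type} [Field K] [Field L] [Field M] (f : K →+* L) (g : L →+* M)
    (z : R K) : mapR g (mapR f z) = mapR (g.comp f) z := by
  obtain ⟨a, b, c, rfl⟩ := trip_surj z
  simp only [mapR_trip, RingHom.comp_apply]

theorem l_ptMap_zero {K L : Type} [Field K] [Field L] (f : K →+* L) :
    ptMap f (0 : (E K).toAffine.Point) = 0 := rfl

theorem l_ptMap_neg {K L : Type} [Field K] [Field L] (f : K →+* L) (P : (E K).toAffine.Point) :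
    ptMap f (-P) = -ptMap f P := by
  have h : ptMap f (-P) + ptMap f P = 0 := by
    rw [← ptMap_add, neg_add_cancel, l_ptMap_zero]
  exact eq_neg_of_add_eq_zero_left h

theorem l_ptMap_two {K L : Type} [Field K] [Field L] (f : K →+* L) (P : (E K).toAffine.Point) :
    ptMap f (2 • P) = 2 • ptMap f P := by
  rw [two_nsmul, ptMap_add, ← two_nsmul]

theorem l_nonsing {K : Type} [Field K] : (E K).toAffine.Nonsingular 0 0 := by
  rw [WeierstrassCurve.Affine.nonsingular_iff]
  constructor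
  · rw [WeierstrassCurve.Affine.equation_iff]
    simp [E]
  · right
    simp [E]

/-- the point `(0, 0)` of order `3` -/
noncomputable def l_R0 (K : Type) [Field K] : (E K).toAffine.Point := .some 0 0 l_nonsing

theorem l_R0_ne (K : Type) [Field K] : l_R0 K ≠ 0 := by
  intro h
  exact WeierstrassCurve.Affine.Point.some_ne_zero _ h

theorem l_R0_map {K L : Type} [Field K] [Field L] (f : K →+* L) : ptMap f (l_R0 K) = l_R0 L := by
  simp only [l_R0, ptMap, WeierstrassCurve.Affine.Point.some.injEq, map_zero, and_self]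

theorem l_R0_three (K : Type) [Field K] : 3 • l_R0 K = 0 := by
  have hy : (0 : K) ≠ (E K).toAffine.negY 0 0 := by
    simp [WeierstrassCurve.Affine.negY, E, WeierstrassCurve.toAffine]
  have h2 : l_R0 K + l_R0 K = - l_R0 K := by
    rw [l_R0, WeierstrassCurve.Affine.Point.add_self_of_Y_ne hy,
      WeierstrassCurve.Affine.Point.neg_some, WeierstrassCurve.Affine.Point.some.injEq]
    have hs : (E K).toAffine.slope 0 0 0 0 = 0 := by
      rw [WeierstrassCurve.Affine.slope_of_Y_ne rfl hy]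
      simp [E, WeierstrassCurve.toAffine]
    rw [hs]
    simp [WeierstrassCurve.Affine.addX, WeierstrassCurve.Affine.addY,
      WeierstrassCurve.Affine.negAddY, WeierstrassCurve.Affine.negY, E,
      WeierstrassCurve.toAffine]
  rw [show (3 : ℕ) = 2 + 1 from rfl, add_nsmul, two_nsmul, one_nsmul, h2, neg_add_cancel]

/-- a point fixed by the Galois group is defined over the base field -/
theorem l_fixed_point (F L : Type) [Field F] [Field L] [Algebra F L] [IsGalois F L]
    (P : (E L).toAffine.Point) (h : ∀ σ : L ≃ₐ[F] L, ptMap (σ : L →+* L) P = P) :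
    ∃ P0 : (E F).toAffine.Point, ptMap (algebraMap F L) P0 = P := by
  rcases P with _ | ⟨x, y, hxy⟩
  · exact ⟨0, rfl⟩
  · have hx : ∀ σ : L ≃ₐ[F] L, σ x = x ∧ σ y = y := by
      intro σ
      have h1 := h σ
      simp only [ptMap, WeierstrassCurve.Affine.Point.some.injEq] at h1
      exact h1
    obtain ⟨x0, hx0⟩ := (InfiniteGalois.mem_range_algebraMap_iff_fixed x).2 fun σ => (hx σ).1
    obtain ⟨y0, hy0⟩ := (InfiniteGalois.mem_range_algebraMap_iff_fixed y).2 fun σ => (hx σ).2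
    have hns : (E F).toAffine.Nonsingular x0 y0 := by
      have h2 : ((E F).toAffine.map (algebraMap F L)) = (E L).toAffine := E_map _
      rw [← WeierstrassCurve.Affine.map_nonsingular (E F).toAffine (algebraMap F L).injective x0 y0,
        h2, hx0, hy0]
      exact hxy
    refine ⟨.some x0 y0 hns, ?_⟩
    simp only [ptMap, WeierstrassCurve.Affine.Point.some.injEq]
    exact ⟨hx0, hy0⟩

theorem locCond (F L : Type) [Field F] [CharZero F] [Field L] [Algebra F L]
    [IsAlgClosure F L] (c : (L ≃ₐ[F] L) → (E L).toAffine.Point) (h2 : ∀ σ, 2 • c σ = 0) (S : R L)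
    (hS : IsUnit S) (h : ∀ σ : L ≃ₐ[F] L, mapR (σ : L →+* L) S = rOf (c σ) * S) (z : R F)
    (hz : mapR (algebraMap F L) z = S ^ 2) (Fv Lv : Type) [Field Fv] [Algebra F Fv] [Field Lv]
    [Algebra Fv Lv] [IsAlgClosure Fv Lv] [Algebra F Lv] [IsScalarTower F Fv Lv] (ι : L →ₐ[F] Lv)
    (Q : (E Lv).toAffine.Point)
    (hQ : ∀ (τ : Lv ≃ₐ[Fv] Lv) (σ : L ≃ₐ[F] L), (∀ x, ι (σ x) = τ (ι x)) →
      ptMap (ι : L →+* Lv) (c σ) = ptMap (τ : Lv →+* Lv) Q - Q) : LocCond z Fv := by
  haveI : CharZero Fv := charZero_of_injective_algebraMap (algebraMap F Fv).injective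
  haveI : CharZero Lv := charZero_of_injective_algebraMap (algebraMap F Lv).injective
  haveI : IsGalois F L := inferInstance
  haveI : IsGalois Fv Lv := inferInstance
  -- choice of `B`
  obtain ⟨B, hBu, hB⟩ : ∃ B : (E Lv).toAffine.Point, IsUnit (rOf B) ∧
      ∀ (τ : Lv ≃ₐ[Fv] Lv) (σ : L ≃ₐ[F] L), (∀ x, ι (σ x) = τ (ι x)) →
      ptMap (ι : L →+* Lv) (c σ) = ptMap (τ : Lv →+* Lv) B - B := by
    rcases exists_unit_add Q (l_R0 Lv) (l_R0_ne Lv) (l_R0_three Lv) with hu | hu
    · exact ⟨Q, hu, hQ⟩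
    · refine ⟨Q + l_R0 Lv, hu, fun τ σ hc => ?_⟩
      rw [hQ τ σ hc, ptMap_add, l_R0_map]
      abel
  -- restriction of automorphisms
  have hres : ∀ τ : Lv ≃ₐ[Fv] Lv, ∃ σ : L ≃ₐ[F] L, ∀ x, ι (σ x) = τ (ι x) := by
    intro τ
    letI : Algebra L Lv := (ι : L →+* Lv).toAlgebra
    haveI : IsScalarTower F L Lv := IsScalarTower.of_algebraMap_eq' (by
      ext x
      show algebraMap F Lv x = ι (algebraMap F L x)
      rw [ι.commutes])
    haveI : Normal F L := inferInstance
    refine ⟨(τ.restrictScalars F).restrictNormal L, fun x => ?_⟩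
    exact AlgEquiv.restrictNormal_commutes (τ.restrictScalars F) L x
  obtain ⟨β, hβ⟩ := hBu
  set U : R Lv := mapR (ι : L →+* Lv) S * ((β⁻¹ : (R Lv)ˣ) : R Lv) with hU
  have hUβ : U * rOf B = mapR (ι : L →+* Lv) S := by
    rw [hU, ← hβ, mul_assoc, Units.inv_mul, mul_one]
  -- `c σ` has order two in `E(Lv)`
  have h2' : ∀ σ, 2 • ptMap (ι : L →+* Lv) (c σ) = 0 := by
    intro σ
    rw [← l_ptMap_two, h2, l_ptMap_zero]
  have hfix : ∀ τ : Lv ≃ₐ[Fv] Lv, mapR (τ : Lv →+* Lv) U = U := by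
    intro τ
    obtain ⟨σ, hσ⟩ := hres τ
    set T := ptMap (ι : L →+* Lv) (c σ) with hT
    have hTB : ptMap (τ : Lv →+* Lv) B = B + T := by
      rw [hT, hB τ σ hσ]; abel
    have e1 : mapR (τ : Lv →+* Lv) (mapR (ι : L →+* Lv) S) = rOf T * mapR (ι : L →+* Lv) S := by
      have hcomp : (τ : Lv →+* Lv).comp (ι : L →+* Lv) =
          (ι : L →+* Lv).comp ((σ : L ≃ₐ[F] L) : L →+* L) := by
        ext x
        exact (hσ x).symm
      rw [l_mapR_comp, hcomp, ← l_mapR_comp, h σ, map_mul, rOf_map]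
    have e2 : mapR (τ : Lv →+* Lv) (rOf B) = rOf B * rOf T := by
      rw [rOf_map, hTB, rOf_add _ _ (h2' σ)]
    have e3 : mapR (τ : Lv →+* Lv) U * (rOf B * rOf T) = rOf T * mapR (ι : L →+* Lv) S := by
      rw [← e2, ← map_mul, hUβ, e1]
    have e4 := rOf_tors_sq T (h2' σ)
    have e5 : mapR (τ : Lv →+* Lv) U * rOf B = mapR (ι : L →+* Lv) S := by
      calc mapR (τ : Lv →+* Lv) U * rOf B
          = mapR (τ : Lv →+* Lv) U * rOf B * (rOf T * rOf T) := by rw [e4, mul_one]
        _ = (mapR (τ : Lv →+* Lv) U * (rOf B * rOf T)) * rOf T := by ring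
        _ = rOf T * mapR (ι : L →+* Lv) S * rOf T := by rw [e3]
        _ = (rOf T * rOf T) * mapR (ι : L →+* Lv) S := by ring
        _ = mapR (ι : L →+* Lv) S := by rw [e4, one_mul]
    have e6 : mapR (τ : Lv →+* Lv) U * (β : R Lv) = U * (β : R Lv) := by
      rw [hβ, e5, hUβ]
    exact (Units.mul_left_inj β).1 e6
  obtain ⟨u, hu⟩ := fixed_mapR Fv Lv U hfix
  have hfixB : ∀ τ : Lv ≃ₐ[Fv] Lv, ptMap (τ : Lv →+* Lv) (2 • B) = 2 • B := by
    intro τ
    obtain ⟨σ, hσ⟩ := hres τ
    have hTB : ptMap (τ : Lv →+* Lv) B = B + ptMap (ι : L →+* Lv) (c σ) := by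
      rw [hB τ σ hσ]; abel
    rw [l_ptMap_two, hTB, nsmul_add, h2', add_zero]
  obtain ⟨P, hP⟩ := l_fixed_point Fv Lv (2 • B) hfixB
  refine ⟨P, u, ?_, ?_⟩
  · apply isUnit_of_norm
    intro h0
    have h1 : Algebra.norm Lv U = 0 := by
      rw [← hu, norm_mapR, h0, map_zero]
    have h3 : IsUnit U := by
      rw [hU]
      exact (hS.map (mapR (ι : L →+* Lv))).mul (Units.isUnit _)
    have h4 := h3.map (Algebra.norm Lv)
    rw [h1] at h4
    exact not_isUnit_zero h4
  · apply l_mapR_injective (algebraMap Fv Lv)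
    rw [l_mapR_comp, map_mul, map_pow, ← zOf_ptMap, hP, hu, ← rOf_sq]
    have hcomp : (algebraMap Fv Lv).comp (algebraMap F Fv) =
        (ι : L →+* Lv).comp (algebraMap F L) := by
      ext x
      show algebraMap Fv Lv (algebraMap F Fv x) = ι (algebraMap F L x)
      rw [ι.commutes, ← IsScalarTower.algebraMap_apply]
    rw [hcomp, ← l_mapR_comp, hz, map_pow, ← mul_pow, mul_comm (rOf B), hUβ]

end CM27
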