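import Pool.Agent.MP_9ab903_nt.SB.H
import Pool.Agent.MP_9ab903_nt.SB.A2

set_option autoImplicit false

open Polynomial NumberField IsDedekindDomain
open scoped Classical

namespace CM27

/-! ## [SBS-T] a trivial class comes from a coboundary (file T.lean) -/

theorem t_mapR_comp {K L M : Type} [Field K] [Field L] [Field M] (f : K →+* L) (g : L →+* M)
    (z : R K) : mapR g (mapR f z) = mapR (g.comp f) z := by
  obtain ⟨a, b, c, rfl⟩ := trip_surj z
  simp only [mapR_trip, RingHom.comp_apply]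

theorem t_norm_neg {K : Type} [Field K] (z : R K) :
    Algebra.norm K (-z) = -Algebra.norm K z := by
  obtain ⟨a, b, c, rfl⟩ := trip_surj z
  have h : -(trip a b c : R K) = trip (-a) (-b) (-c) := by
    simp only [trip, map_neg]
    ring
  rw [h, norm_trip, norm_trip]
  ring

theorem t_ptMap_tors {K L : Type} [Field K] [Field L] (f : K →+* L) (T : (E K).toAffine.Point)
    (hT : 2 • T = 0) : 2 • ptMap f T = 0 := by
  rw [two_nsmul, ← ptMap_add, ← two_nsmul, hT]
  rfl

/-- the statement for an element `e` of norm `1` -/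
theorem t_aux (F L : Type) [Field F] [CharZero F] [Field L] [Algebra F L]
    [IsAlgClosure F L] (c : (L ≃ₐ[F] L) → (E L).toAffine.Point) (h2 : ∀ σ, 2 • c σ = 0) (S : R L)
    (h : ∀ σ : L ≃ₐ[F] L, mapR (σ : L →+* L) S = rOf (c σ) * S) (t : R F) (e : R L)
    (hu : IsUnit (mapR (algebraMap F L) t)) (he : e * mapR (algebraMap F L) t = S)
    (he2 : e ^ 2 = 1) (hn : Algebra.norm L e = 1) :
    ∃ T : (E L).toAffine.Point, ∀ σ : L ≃ₐ[F] L, c σ = ptMap (σ : L →+* L) T - T := by
  have : CharZero L := charZero_of_injective_algebraMap (algebraMap F L).injective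
  have : IsAlgClosed L := IsAlgClosure.isAlgClosed F
  obtain ⟨ρ⟩ := exists_roots L
  obtain ⟨T, hT, hTe⟩ := exists_tors ρ e he2 hn
  refine ⟨T, fun σ => ?_⟩
  rw [eq_sub_iff_add_eq]
  have h1 : mapR (σ : L →+* L) (mapR (algebraMap F L) t) = mapR (algebraMap F L) t := by
    rw [t_mapR_comp]
    have h5 : (σ : L →+* L).comp (algebraMap F L) = algebraMap F L := by
      ext x
      simp
    rw [h5]
  have h3 : mapR (σ : L →+* L) e = rOf (c σ) * e := by
    have h4 : mapR (σ : L →+* L) e * mapR (algebraMap F L) t =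
        rOf (c σ) * e * mapR (algebraMap F L) t := by
      rw [mul_assoc, he, ← h σ]
      conv_lhs => rw [← h1]
      rw [← map_mul, he]
    exact hu.mul_right_cancel h4
  rw [← hTe, rOf_map, ← rOf_add _ _ hT] at h3
  refine (rOf_tors_inj _ _ (t_ptMap_tors _ _ hT) ?_ h3).symm
  rw [nsmul_add, h2, hT, add_zero]

theorem trivial_of_square (F L : Type) [Field F] [CharZero F] [Field L] [Algebra F L]
    [IsAlgClosure F L] (c : (L ≃ₐ[F] L) → (E L).toAffine.Point) (h2 : ∀ σ, 2 • c σ = 0) (S : R L)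
    (hS : IsUnit S) (h : ∀ σ : L ≃ₐ[F] L, mapR (σ : L →+* L) S = rOf (c σ) * S) (t : R F)
    (ht : mapR (algebraMap F L) t ^ 2 = S ^ 2) :
    ∃ T : (E L).toAffine.Point, ∀ σ : L ≃ₐ[F] L, c σ = ptMap (σ : L →+* L) T - T := by
  have hu : IsUnit (mapR (algebraMap F L) t) := by
    have h1 : IsUnit (mapR (algebraMap F L) t ^ 2) := by
      rw [ht]
      exact hS.pow 2
    exact (isUnit_pow_iff two_ne_zero).1 h1
  obtain ⟨w, hw⟩ := hu
  have he : (S * ↑w⁻¹ : R L) * mapR (algebraMap F L) t = S := by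
    rw [← hw, mul_assoc, Units.inv_mul, mul_one]
  set e : R L := S * ↑w⁻¹ with hedef
  have he2 : e ^ 2 = 1 := by
    have h3 : e ^ 2 * mapR (algebraMap F L) t ^ 2 = 1 * mapR (algebraMap F L) t ^ 2 := by
      rw [← mul_pow, he, one_mul, ht]
    have hu2 : IsUnit (mapR (algebraMap F L) t ^ 2) := by
      rw [← hw]
      exact w.isUnit.pow 2
    exact hu2.mul_right_cancel h3
  have hn : Algebra.norm L e ^ 2 = 1 := by
    rw [← map_pow, he2, map_one]
  rcases sq_eq_one_iff.1 hn with h3 | h3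
  · exact t_aux F L c h2 S h t e (hw ▸ w.isUnit) he he2 h3
  · refine t_aux F L c h2 S h (-t) (-e) ?_ ?_ ?_ ?_
    · rw [map_neg]
      exact (hw ▸ w.isUnit : IsUnit (mapR (algebraMap F L) t)).neg
    · rw [map_neg, neg_mul_neg, he]
    · rw [neg_sq, he2]
    · rw [t_norm_neg, h3, neg_neg]

end CM27
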