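import Pool.Agent.MP_9ab903_nt.SB.SEL
import Pool.Agent.MP_9ab903_nt.SB.L
import Pool.Agent.MP_9ab903_nt.SB.T
import Pool.Agent.MP_9ab903_nt.SB.W
import Pool.Agent.MP_9ab903_nt.Defs

set_option autoImplicit false

open Polynomial NumberField IsDedekindDomain
open scoped Classical

namespace CM27

/-! ## [SBS-FIN] the Tate–Shafarevich group has no element of order `2` (file FIN.lean) -/

/-- The additive homomorphism on points. -/
noncomputable def ptHom {K L : Type} [Field K] [Field L] (f : K →+* L) :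
    (E K).toAffine.Point →+ (E L).toAffine.Point :=
  AddMonoidHom.mk' (ptMap f) (ptMap_add f)

theorem ptHom_apply {K L : Type} [Field K] [Field L] (f : K →+* L) (P : (E K).toAffine.Point) :
    ptHom f P = ptMap f P := rfl

theorem ptHom_comp {K L M : Type} [Field K] [Field L] [Field M] (f : K →+* L) (g : L →+* M)
    (P : (E K).toAffine.Point) : ptHom g (ptHom f P) = ptHom (g.comp f) P := ptMap_comp f g P

theorem fin_loc_apply {F L : Type} [Field F] [Field L] [Algebra F L] [Algebra.IsAlgebraic F L]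
    (x : L) : IsLocallyConstant fun σ : L ≃ₐ[F] L => σ x := by
  rw [IsLocallyConstant.iff_exists_open]
  intro σ
  have : FiniteDimensional F (IntermediateField.adjoin F {x}) :=
    IntermediateField.adjoin.finiteDimensional (Algebra.IsIntegral.isIntegral x)
  let U := (IntermediateField.adjoin F {x}).fixingSubgroup
  have hU : IsOpen (U : Set (L ≃ₐ[F] L)) := IntermediateField.fixingSubgroup_isOpen _
  refine ⟨(fun τ => σ⁻¹ * τ) ⁻¹' U, hU.preimage (continuous_const_mul _), ?_, ?_⟩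
  · change σ⁻¹ * σ ∈ U
    rw [inv_mul_cancel]
    exact U.one_mem
  · intro τ hτ
    have h1 : (σ⁻¹ * τ) x = x := by
      have h2 : σ⁻¹ * τ ∈ U := hτ
      rw [IntermediateField.mem_fixingSubgroup_iff] at h2
      exact h2 x (IntermediateField.mem_adjoin_simple_self F x)
    have h3 : τ x = σ ((σ⁻¹ * τ) x) := by
      rw [AlgEquiv.mul_apply]
      change τ x = (σ * σ⁻¹) (τ x)
      rw [mul_inv_cancel]
      rfl
    rw [h3, h1]

theorem fin_loc_pt {F L : Type} [Field F] [Field L] [Algebra F L] [Algebra.IsAlgebraic F L]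
    (P : (E L).toAffine.Point) :
    IsLocallyConstant fun σ : L ≃ₐ[F] L => ptHom (σ : L →+* L) P := by
  rcases P with _ | ⟨x, y, h⟩
  · exact IsLocallyConstant.const _
  · rw [IsLocallyConstant.iff_exists_open]
    intro σ
    obtain ⟨U, hU, hσU, hU'⟩ := (IsLocallyConstant.iff_exists_open _).1
      (fin_loc_apply (F := F) x) σ
    obtain ⟨V, hV, hσV, hV'⟩ := (IsLocallyConstant.iff_exists_open _).1
      (fin_loc_apply (F := F) y) σ
    refine ⟨U ∩ V, hU.inter hV, ⟨hσU, hσV⟩, fun τ hτ => ?_⟩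
    have h1 : τ x = σ x := hU' τ hτ.1
    have h2 : τ y = σ y := hV' τ hτ.2
    rw [ptHom_apply, ptHom_apply]
    simp only [ptMap]
    congr 1

/-- If the Selmer group (in the form of elements of `F[π]/(π³ - 2)`) is trivial, then a cocycle which
is trivial at all finite places and whose double is principal is principal. -/
theorem sha_two_of_selmer (F : Type) [Field F] [NumberField F]
    (hsel : ∀ z : R F, z ≠ 0 → (∃ n : F, Algebra.norm F z = n ^ 2) →
      (∀ v : HeightOneSpectrum (𝓞 F), LocCond z (v.adicCompletion F)) → ∃ t : R F, z = t ^ 2)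
    (c : SBSD.AbsGal F → SBSD.Pts (E F) (AlgebraicClosure F)) (hc : c ∈ SBSD.cocycles (E F))
    (hloc0 : ∀ v : HeightOneSpectrum (𝓞 F), SBSD.TrivialOver (E F) (v.adicCompletion F) c)
    (h2 : ∃ P : SBSD.Pts (E F) (AlgebraicClosure F), ∀ σ : SBSD.AbsGal F,
      2 • c σ = WeierstrassCurve.Affine.Point.map (W' := E F) σ.toAlgHom P - P) :
    c ∈ SBSD.coboundaries (E F) := by
  obtain ⟨hc1, hc2⟩ := hc
  obtain ⟨Q, hQ⟩ := h2
  let L := AlgebraicClosure F
  let e := tr F L
  have hgact : ∀ (σ : L ≃ₐ[F] L) (P : SBSD.Pts (E F) (AlgebraicClosure F)),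
      e (WeierstrassCurve.Affine.Point.map (W' := E F) σ.toAlgHom P) =
        ptHom (σ : L →+* L) (e P) := fun σ P => tr_map F L L σ.toAlgHom P
  obtain ⟨P, hP⟩ := two_divisible (K := L) (e Q)
  let c' : (L ≃ₐ[F] L) → (E L).toAffine.Point := fun σ =>
    e (c σ) - (ptHom (σ : L →+* L) P - P)
  have hcomp : ∀ σ τ : L ≃ₐ[F] L, (((σ * τ : L ≃ₐ[F] L)) : L →+* L) =
      (σ : L →+* L).comp (τ : L →+* L) := fun σ τ => rfl
  have hcoc : Coc F L c' := by
    refine ⟨?_, fun σ τ => ?_⟩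
    · have h4 : IsLocallyConstant fun σ : L ≃ₐ[F] L => e (c σ) := hc1.comp e
      exact h4.sub ((fin_loc_pt (F := F) P).sub (IsLocallyConstant.const P))
    · have h4 := hc2 σ τ
      change e (c (σ * τ)) - (ptHom ((σ * τ : L ≃ₐ[F] L) : L →+* L) P - P) =
        (e (c σ) - (ptHom (σ : L →+* L) P - P)) +
          ptHom (σ : L →+* L) (e (c τ) - (ptHom (τ : L →+* L) P - P))
      rw [h4, map_add, hgact, hcomp, ← ptHom_comp, map_sub, map_sub]
      abel
  have h2c : ∀ σ, 2 • c' σ = 0 := by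
    intro σ
    have h5 : 2 • e (c σ) = ptHom (σ : L →+* L) (e Q) - e Q := by
      rw [← map_nsmul, hQ σ, map_sub, hgact]
    change 2 • (e (c σ) - (ptHom (σ : L →+* L) P - P)) = 0
    rw [nsmul_sub, h5, hP, map_nsmul, nsmul_sub, sub_self]
  obtain ⟨S, hS, hSσ⟩ := hilbert90 F L c' hcoc h2c
  obtain ⟨z, hz0, hzN, hzS⟩ := exists_class F L c' h2c S hS hSσ
  have hloc : ∀ v : HeightOneSpectrum (𝓞 F), LocCond z (v.adicCompletion F) := by
    intro v
    let Fv := v.adicCompletion F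
    let Lv := AlgebraicClosure Fv
    let ι : L →ₐ[F] Lv := IsAlgClosed.lift
    obtain ⟨Q', hQ'⟩ := hloc0 v ι
    refine locCond F L c' h2c S hS hSσ z hzS Fv Lv ι (tr F Lv Q' - ptHom (ι : L →+* Lv) P) ?_
    intro τ σ hστ
    have h6 := congrArg (tr F Lv) (hQ' τ σ hστ)
    rw [tr_map, map_sub, tr_map] at h6
    have h7 : (ι : L →+* Lv).comp (σ : L →+* L) = (τ : Lv →+* Lv).comp (ι : L →+* Lv) := by
      ext x
      exact hστ x
    change ptHom (ι : L →+* Lv) (e (c σ) - (ptHom (σ : L →+* L) P - P)) =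
      ptHom (τ : Lv →+* Lv) (tr F Lv Q' - ptHom (ι : L →+* Lv) P) -
        (tr F Lv Q' - ptHom (ι : L →+* Lv) P)
    rw [map_sub, map_sub, map_sub, ptHom_comp, ptHom_comp, h7]
    have h8 : ptHom (ι : L →+* Lv) (e (c σ)) = ptHom (τ : Lv →+* Lv) (tr F Lv Q') - tr F Lv Q' := h6
    rw [h8]
    abel
  obtain ⟨t, ht⟩ := hsel z hz0 hzN hloc
  obtain ⟨T, hT⟩ := trivial_of_square F L c' h2c S hS hSσ t (by rw [← map_pow, ← ht, hzS])
  refine ⟨e.symm (P + T), fun σ => e.injective ?_⟩
  rw [map_sub, hgact, e.apply_symm_apply, map_add]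
  have h9 : e (c σ) - (ptHom (σ : L →+* L) P - P) = ptHom (σ : L →+* L) T - T := hT σ
  have h10 : e (c σ) = (ptHom (σ : L →+* L) T - T) + (ptHom (σ : L →+* L) P - P) := by
    rw [← h9]
    abel
  rw [h10]
  abel

/-- A cocycle which is trivial at all finite places and whose double is principal is principal. -/
theorem sha_two (m : ℕ) [NeZero m] (hm : GoodLevel m) (M : Type) [Field M] [NumberField M]
    [IsCyclotomicExtension {m} ℚ M] (F : IntermediateField ℚ M) (n : ℕ)
    (hF : Module.finrank ℚ F = 2 ^ n)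
    (c : SBSD.AbsGal F → SBSD.Pts (E F) (AlgebraicClosure F)) (hc : c ∈ SBSD.cocycles (E F))
    (hloc : ∀ v : HeightOneSpectrum (𝓞 F), SBSD.TrivialOver (E F) (v.adicCompletion F) c)
    (h2 : ∃ P : SBSD.Pts (E F) (AlgebraicClosure F), ∀ σ : SBSD.AbsGal F,
      2 • c σ = WeierstrassCurve.Affine.Point.map (W' := E F) σ.toAlgHom P - P) :
    c ∈ SBSD.coboundaries (E F) :=
  sha_two_of_selmer F (fun z hz hN hloc => selmer_trivial m hm M F n hF z hz hN hloc) c hc hloc h2

theorem fin_two_pow {A : Type} [AddCommGroup A] (h : ∀ x : A, 2 • x = 0 → x = 0) (k : ℕ) :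
    ∀ x : A, 2 ^ k • x = 0 → x = 0 := by
  induction k with
  | zero =>
    intro x h2
    simpa using h2
  | succ k ih =>
    intro x h2
    refine ih x (h _ ?_)
    rw [smul_smul, ← pow_succ', h2]

/-- The Tate–Shafarevich group has no element of `2`-power order. -/
theorem sha_two_pow (m : ℕ) [NeZero m] (hm : GoodLevel m) (M : Type) [Field M] [NumberField M]
    [IsCyclotomicExtension {m} ℚ M] (F : IntermediateField ℚ M) (n : ℕ)
    (hF : Module.finrank ℚ F = 2 ^ n) (k : ℕ) (x : SBSD.Sha (E F)) (h2 : 2 ^ k • x = 0) :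
    x = 0 := by
  refine fin_two_pow (A := SBSD.Sha (E F)) (fun x hx => ?_) k x h2
  obtain ⟨c, rfl⟩ := QuotientAddGroup.mk_surjective x
  obtain ⟨hc1, hc2, -⟩ := c.2
  have h3 : 2 • c ∈ (SBSD.coboundaries (E F)).addSubgroupOf (SBSD.locTrivial (E F)) := by
    rw [← QuotientAddGroup.eq_zero_iff]
    exact hx
  obtain ⟨P, hP⟩ := AddSubgroup.mem_addSubgroupOf.1 h3
  exact (QuotientAddGroup.eq_zero_iff _).2 (AddSubgroup.mem_addSubgroupOf.2
    (sha_two m hm M F n hF c.1 hc1 hc2 ⟨P, fun σ => hP σ⟩))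

end CM27
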