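import Pool.Agent.MP_9ab903_nt.SB.SDefs
import Pool.Agent.MP_ae0bd0_nt.CM.R4d

set_option autoImplicit false

open Polynomial NumberField IsDedekindDomain
open scoped Classical

namespace CM27

/-! ## [SBS-UR] `F(∛2) / ℚ(∛2)` is unramified outside `m` (file UR.lean) -/

theorem ur_core {A B L : Type} [Field A] [NumberField A] [Field B] [NumberField B] [Field L]
    [NumberField L] [Algebra A B] [Algebra B L] [Algebra A L] [IsScalarTower A B L]
    (v : HeightOneSpectrum (𝓞 A)) (w : HeightOneSpectrum (𝓞 L))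
    [hw : w.asIdeal.LiesOver v.asIdeal] (hram : v.asIdeal.ramificationIdx' w.asIdeal = 1) :
    ∃ P : HeightOneSpectrum (𝓞 B), P.asIdeal.LiesOver v.asIdeal ∧
      ∀ z : A, P.valuation B (algebraMap A B z) = v.valuation A z := by
  have hP0 : w.asIdeal.comap (algebraMap (𝓞 B) (𝓞 L)) ≠ ⊥ := by
    intro h
    apply v.ne_bot
    rw [hw.over, eq_bot_iff]
    intro x hx
    have h1 : algebraMap (𝓞 A) (𝓞 B) x ∈ w.asIdeal.comap (algebraMap (𝓞 B) (𝓞 L)) := by
      rw [Ideal.mem_comap, ← IsScalarTower.algebraMap_apply]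
      exact hx
    rw [h, Ideal.mem_bot] at h1
    rw [Ideal.mem_bot]
    exact (FaithfulSMul.algebraMap_injective (𝓞 A) (𝓞 B)) (by rw [h1, map_zero])
  let P : HeightOneSpectrum (𝓞 B) := ⟨w.asIdeal.comap (algebraMap (𝓞 B) (𝓞 L)),
    w.isPrime.comap _, hP0⟩
  have hwP : w.asIdeal.LiesOver P.asIdeal := ⟨rfl⟩
  have hPv : P.asIdeal.LiesOver v.asIdeal := ⟨by
    rw [hw.over]
    change _ = Ideal.comap _ (Ideal.comap _ _)
    rw [Ideal.comap_comap, ← IsScalarTower.algebraMap_eq]⟩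
  refine ⟨P, hPv, fun z => ?_⟩
  have h1 := fun z : A => HeightOneSpectrum.valuation_liesOver (K := A) B v P z
  have h2 := fun y : B => HeightOneSpectrum.valuation_liesOver (K := B) L P w y
  have h3 := fun z : A => HeightOneSpectrum.valuation_liesOver (K := A) L v w z
  have h4 : ∀ z : A, v.valuation A z ^ (v.asIdeal.ramificationIdx' P.asIdeal *
      P.asIdeal.ramificationIdx' w.asIdeal) = v.valuation A z := by
    intro z
    rw [pow_mul, h1, h2, ← IsScalarTower.algebraMap_apply, ← h3, hram, pow_one]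
  obtain ⟨π, hπ⟩ := v.valuation_exists_uniformizer A
  have h5 := h4 π
  rw [hπ, ← WithZero.exp_nsmul, WithZero.exp_inj] at h5
  have h6 : v.asIdeal.ramificationIdx' P.asIdeal * P.asIdeal.ramificationIdx' w.asIdeal = 1 := by
    simp only [nsmul_eq_mul] at h5
    have : ((v.asIdeal.ramificationIdx' P.asIdeal * P.asIdeal.ramificationIdx' w.asIdeal : ℕ) : ℤ)
      = 1 := by linarith
    exact_mod_cast this
  have h7 := Nat.eq_one_of_mul_eq_one_right h6
  rw [← h1, h7, pow_one]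

theorem unram_R (m : ℕ) [NeZero m] (M : Type) [Field M] [NumberField M]
    [IsCyclotomicExtension {m} ℚ M] (F : IntermediateField ℚ M) [Fact (Irreducible (cubPoly F))]
    (v : HeightOneSpectrum (𝓞 (R ℚ))) (hv : ((6 * m : ℕ) : 𝓞 (R ℚ)) ∉ v.asIdeal) :
    ∃ P : HeightOneSpectrum (𝓞 (R F)), (6 : 𝓞 (R F)) ∉ P.asIdeal ∧
      ∀ z : R ℚ, P.valuation (R F) (mapR (algebraMap ℚ F) z) = v.valuation (R ℚ) z := by
  let L := CyclotomicField m (R ℚ)
  obtain ⟨φ, hφ⟩ := exists_embedding m M F L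
  have hvm : (m : 𝓞 (R ℚ)) ∉ v.asIdeal := fun h1 => hv (by
    rw [Nat.cast_mul]; exact Ideal.mul_mem_left _ _ h1)
  have hv6 : ((6 : ℕ) : 𝓞 (R ℚ)) ∉ v.asIdeal := fun h1 => hv (by
    rw [Nat.cast_mul]; exact Ideal.mul_mem_right _ _ h1)
  have := v.isMaximal
  obtain ⟨Q, hQm, hQ⟩ := Ideal.exists_maximal_ideal_liesOver_of_isIntegral
    (S := 𝓞 L) v.asIdeal
  have hQ0 : Q ≠ ⊥ := Ideal.ne_bot_of_liesOver_of_ne_bot v.ne_bot Q
  let w : HeightOneSpectrum (𝓞 L) := ⟨Q, hQm.isPrime, hQ0⟩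
  have hw : w.asIdeal.LiesOver v.asIdeal := hQ
  have hram := cyc_ram_one m L v hvm w
  letI : Algebra (R ℚ) (R F) := (mapR (algebraMap ℚ F)).toAlgebra
  letI : Algebra (R F) L := φ.toAlgebra
  haveI : IsScalarTower (R ℚ) (R F) L := IsScalarTower.of_algebraMap_eq fun z => (hφ z).symm
  obtain ⟨P, hP, hval⟩ := ur_core (B := R F) v w hram
  refine ⟨P, fun h6 => hv6 ?_, hval⟩
  rw [hP.over, Ideal.mem_comap, map_natCast]
  exact_mod_cast h6

end CM27
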