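import Pool.Agent.MP_9ab903_nt.SB.SDefs

set_option autoImplicit false

open Polynomial NumberField IsDedekindDomain
open scoped Classical

namespace CM27

/-! ## [SBS-CO] maps of completions and of primes (file CO.lean) -/

/-- the primes below -/
theorem exists_below (F L : Type) [Field F] [NumberField F] [Field L] [NumberField L] [Algebra F L]
    (P : HeightOneSpectrum (𝓞 L)) : ∃ v : HeightOneSpectrum (𝓞 F), v.asIdeal = P.asIdeal.under (𝓞 F) ∧
      ∃ φ : v.adicCompletion F →+* P.adicCompletion L,
        ∀ x : F, φ (algebraMap F (v.adicCompletion F) x) =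
          algebraMap L (P.adicCompletion L) (algebraMap F L x) := by
  have hne : P.asIdeal.under (𝓞 F) ≠ ⊥ := Ideal.under_ne_bot _ P.ne_bot
  let v : HeightOneSpectrum (𝓞 F) := ⟨P.asIdeal.under (𝓞 F), inferInstance, hne⟩
  have : P.asIdeal.LiesOver v.asIdeal := ⟨rfl⟩
  refine ⟨v, rfl, ?_⟩
  have huc := HeightOneSpectrum.uniformContinuous_algebraMap_liesOver (A := 𝓞 F) (K := F)
    (B := 𝓞 L) L v P
  let ψ : (v.valuation F).Completion →+* (P.valuation L).Completion :=
    UniformSpace.Completion.mapRingHom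
      (algebraMap (WithVal (v.valuation F)) (WithVal (P.valuation L))) huc.continuous
  refine ⟨((HeightOneSpectrum.adicCompletion.equiv L P).symm.toRingHom.comp ψ).comp
    (HeightOneSpectrum.adicCompletion.equiv F v).toRingHom, fun x => ?_⟩
  apply HeightOneSpectrum.adicCompletion.ext
  have h1 := UniformSpace.Completion.mapRingHom_coe (f := algebraMap (WithVal (v.valuation F))
    (WithVal (P.valuation L))) huc.continuous (WithVal.toVal (v.valuation F) x)
  exact h1

theorem co_surj (R : Type) [CommRing R] (e : R ≃+* R) : Function.Surjective (e : R →+* R) :=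
  e.surjective

/-- the conjugate prime -/
noncomputable def coPr (R : Type) [CommRing R] (e : R ≃+* R) (v : HeightOneSpectrum R) :
    HeightOneSpectrum R := HeightOneSpectrum.comap (e : R →+* R) (co_surj R e) v

theorem co_mem_pow (R : Type) [CommRing R] [IsDedekindDomain R] (e : R ≃+* R)
    (v : HeightOneSpectrum R) (n : ℕ) (r : R) :
    r ∈ (coPr R e v).asIdeal ^ n ↔ e r ∈ v.asIdeal ^ n := by
  have h0 : ∀ I : Ideal R, I.map e.symm = I.comap e := fun I => Ideal.map_symm e
  have h1 : (coPr R e v).asIdeal = v.asIdeal.map e.symm := (h0 _).symm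
  rw [h1, ← Ideal.map_pow, h0]
  exact Iff.rfl

theorem co_intValuation (R : Type) [CommRing R] [IsDedekindDomain R] (e : R ≃+* R)
    (v : HeightOneSpectrum R) (r : R) :
    (coPr R e v).intValuation r =
      v.intValuation (e r) := by
  set v' := coPr R e v with hv'
  by_cases hr : r = 0
  · rw [hr, map_zero, map_zero, map_zero]
  · have her : e r ≠ 0 := fun h => hr (e.injective (by rw [h, map_zero]))
    have h1 : ∀ n : ℕ, v'.intValuation r ≤ WithZero.exp (-(n : ℤ)) ↔
        v.intValuation (e r) ≤ WithZero.exp (-(n : ℤ)) := by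
      intro n
      rw [HeightOneSpectrum.intValuation_le_pow_iff_mem,
        HeightOneSpectrum.intValuation_le_pow_iff_mem]
      exact co_mem_pow R e v n r
    rw [v'.intValuation_if_neg hr, v.intValuation_if_neg her] at h1 ⊢
    set a := (Associates.mk v'.asIdeal).count (Associates.mk (Ideal.span {r} : Ideal R)).factors
    set b := (Associates.mk v.asIdeal).count (Associates.mk (Ideal.span {e r} : Ideal R)).factors
    simp only [WithZero.exp_le_exp, neg_le_neg_iff, Int.ofNat_le] at h1
    have h2 : a = b := le_antisymm ((h1 a).1 le_rfl) ((h1 b).2 le_rfl)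
    rw [h2]

/-- primes and automorphisms -/
theorem exists_conj (F : Type) [Field F] [NumberField F] (σ : F ≃+* F)
    (v : HeightOneSpectrum (𝓞 F)) : ∃ v' : HeightOneSpectrum (𝓞 F),
      (∀ x : F, v'.valuation F x = v.valuation F (σ x)) ∧
      (∀ n : ℕ, (n : 𝓞 F) ∈ v'.asIdeal ↔ (n : 𝓞 F) ∈ v.asIdeal) ∧
      (∀ n : ℕ, (n : 𝓞 F) ∈ v'.asIdeal ^ 2 ↔ (n : 𝓞 F) ∈ v.asIdeal ^ 2) := by
  set e : 𝓞 F ≃+* 𝓞 F := RingOfIntegers.mapRingEquiv σ with he
  have hpow := co_mem_pow (𝓞 F) e v
  refine ⟨coPr (𝓞 F) e v, ?_, ?_, ?_⟩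
  · intro x
    obtain ⟨r, s, hs, rfl⟩ := IsFractionRing.div_surjective (A := 𝓞 F) x
    have h1 : ∀ r : 𝓞 F, σ (algebraMap (𝓞 F) F r) = algebraMap (𝓞 F) F (e r) := fun r => rfl
    rw [map_div₀, map_div₀, map_div₀, h1, h1, HeightOneSpectrum.valuation_of_algebraMap,
      HeightOneSpectrum.valuation_of_algebraMap, HeightOneSpectrum.valuation_of_algebraMap,
      HeightOneSpectrum.valuation_of_algebraMap, co_intValuation, co_intValuation]
  · intro n
    have := hpow 1 n
    rw [pow_one, pow_one, map_natCast] at this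
    exact this
  · intro n
    have := hpow 2 n
    rw [map_natCast] at this
    exact this

end CM27
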