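import Pool.Agent.MP_9ab903_nt.SB.SDefs
import Pool.Agent.MP_ae0bd0_nt.CM.R1

set_option autoImplicit false

open Polynomial NumberField IsDedekindDomain
open scoped Classical

namespace CM27

/-! ## [SBS-A4] square roots of `1` come from points of order `2` (file A4.lean) -/

theorem a4_trip_mul {K : Type} [Field K] (a b c a' b' c' : K) :
    trip a b c * trip a' b' c' =
      trip (a * a' + 2 * b * c' + 2 * c * b') (a * b' + b * a' + 2 * c * c')
        (a * c' + c * a' + b * b') := by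
  have h3 : pr K ^ 3 = 2 := pr_pow K
  have h4 : pr K ^ 4 = 2 * pr K := by rw [pow_succ, h3]
  have h2 : algebraMap K (R K) 2 = 2 := map_ofNat _ 2
  simp only [trip, map_add, map_mul, h2]
  linear_combination (algebraMap K (R K) b * algebraMap K (R K) c' +
    algebraMap K (R K) c * algebraMap K (R K) b') * h3 +
    algebraMap K (R K) c * algebraMap K (R K) c' * h4

theorem isUnit_of_norm {K : Type} [Field K] (z : R K) (h : Algebra.norm K z ≠ 0) : IsUnit z := by
  obtain ⟨a, b, c, rfl⟩ := trip_surj z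
  rw [norm_trip] at h
  set n := a ^ 3 + 2 * b ^ 3 + 4 * c ^ 3 - 6 * a * b * c with hn
  have h1 : trip a b c * trip (a ^ 2 - 2 * b * c) (2 * c ^ 2 - a * b) (b ^ 2 - a * c) =
      algebraMap K (R K) n := by
    rw [a4_trip_mul]
    have e1 : a * (a ^ 2 - 2 * b * c) + 2 * b * (b ^ 2 - a * c) + 2 * c * (2 * c ^ 2 - a * b) = n := by
      rw [hn]; ring
    have e2 : a * (2 * c ^ 2 - a * b) + b * (a ^ 2 - 2 * b * c) + 2 * c * (b ^ 2 - a * c) = 0 := by
      ring
    have e3 : a * (b ^ 2 - a * c) + c * (a ^ 2 - 2 * b * c) + b * (2 * c ^ 2 - a * b) = 0 := by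
      ring
    rw [e1, e2, e3]
    simp [trip]
  have h2 : IsUnit (algebraMap K (R K) n) := (isUnit_iff_ne_zero.mpr h).map _
  rw [← h1] at h2
  exact isUnit_of_mul_isUnit_left h2

theorem a4_quad {K : Type} [Field K] {a b : K} (ha : a ^ 3 = 2) (hb : b ^ 3 = 2) (hab : a ≠ b) :
    a ^ 2 + a * b + b ^ 2 = 0 := by
  have h : (a - b) * (a ^ 2 + a * b + b ^ 2) = 0 := by linear_combination ha - hb
  exact (mul_eq_zero.mp h).resolve_left (sub_ne_zero.mpr hab)

theorem a4_sum {K : Type} [Field K] (ρ : Roots K) : ρ.a + ρ.b + ρ.c = 0 := by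
  have h1 := a4_quad ρ.ha ρ.hb ρ.hab
  have h2 := a4_quad ρ.ha ρ.hc ρ.hac
  have h : (ρ.b - ρ.c) * (ρ.a + ρ.b + ρ.c) = 0 := by linear_combination h1 - h2
  exact (mul_eq_zero.mp h).resolve_left (sub_ne_zero.mpr ρ.hbc)

/-- the norm is the product of the values at three different cube roots of `2` -/
theorem norm_eq_prod {K : Type} [Field K] (ρ : Roots K) (z : R K) :
    Algebra.norm K z = evR (RingHom.id K) ρ.a ρ.ha z * evR (RingHom.id K) ρ.b ρ.hb z *
      evR (RingHom.id K) ρ.c ρ.hc z := by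
  obtain ⟨x, y, z, rfl⟩ := trip_surj z
  rw [norm_trip, evR_trip, evR_trip, evR_trip]
  simp only [RingHom.id_apply]
  have h0 := a4_sum ρ
  have h1 := a4_quad ρ.ha ρ.hb ρ.hab
  have hc : ρ.c = -ρ.a - ρ.b := by linear_combination h0
  have ha := ρ.ha
  rw [hc]
  generalize ρ.a = a at *
  generalize ρ.b = b at *
  have h2 : a * b * (a + b) = -2 := by linear_combination a * h1 - ha
  have e1 : a * b = -(a ^ 2 + b ^ 2) := by linear_combination h1
  -- elementary symmetric functions: e1 = 0, e2 = 0, e3 = 2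
  have s2 : a * b - (a + b) ^ 2 = 0 := by linear_combination -h1
  have s3 : a * b * (-a - b) = 2 := by linear_combination -h2
  have key : (x + y * a + z * a ^ 2) * (x + y * b + z * b ^ 2) *
      (x + y * (-a - b) + z * (-a - b) ^ 2) =
      x ^ 3 + (a * b * (-a - b)) * y ^ 3 + (a * b * (-a - b)) ^ 2 * z ^ 3
        - 3 * (a * b * (-a - b)) * x * y * z + (a * b - (a + b) ^ 2) *
        (x * y ^ 2 - 2 * x ^ 2 * z + y * z ^ 2 * (a * b * (-a - b)) +
          x * z ^ 2 * (a * b - (a + b) ^ 2)) := by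
    ring
  rw [key, s2, s3]
  ring

theorem evR_ext {K : Type} [Field K] (ρ : Roots K) (z z' : R K)
    (ha : evR (RingHom.id K) ρ.a ρ.ha z = evR (RingHom.id K) ρ.a ρ.ha z')
    (hb : evR (RingHom.id K) ρ.b ρ.hb z = evR (RingHom.id K) ρ.b ρ.hb z')
    (hc : evR (RingHom.id K) ρ.c ρ.hc z = evR (RingHom.id K) ρ.c ρ.hc z') : z = z' := by
  obtain ⟨x, y, w, rfl⟩ := trip_surj z
  obtain ⟨x', y', w', rfl⟩ := trip_surj z'
  simp only [evR_trip, RingHom.id_apply] at ha hb hc
  have h1 : (ρ.a - ρ.b) * ((y - y') + (w - w') * (ρ.a + ρ.b)) = 0 := by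
    linear_combination ha - hb
  have h2 : (ρ.a - ρ.c) * ((y - y') + (w - w') * (ρ.a + ρ.c)) = 0 := by
    linear_combination ha - hc
  have h1' := (mul_eq_zero.mp h1).resolve_left (sub_ne_zero.mpr ρ.hab)
  have h2' := (mul_eq_zero.mp h2).resolve_left (sub_ne_zero.mpr ρ.hac)
  have h3 : (ρ.b - ρ.c) * (w - w') = 0 := by linear_combination h1' - h2'
  have hw := (mul_eq_zero.mp h3).resolve_left (sub_ne_zero.mpr ρ.hbc)
  have hy : y - y' = 0 := by linear_combination h1' - (ρ.a + ρ.b) * hw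
  have hx : x - x' = 0 := by linear_combination ha - ρ.a * hy - ρ.a ^ 2 * hw
  rw [sub_eq_zero.mp hx, sub_eq_zero.mp hy, sub_eq_zero.mp hw]

theorem a4_exists {K : Type} [Field K] [CharZero K] (ρ : Roots K) (e : R K)
    (ha : evR (RingHom.id K) ρ.a ρ.ha e = 1) (hb : evR (RingHom.id K) ρ.b ρ.hb e = -1)
    (hc : evR (RingHom.id K) ρ.c ρ.hc e = -1) :
    ∃ T : (E K).toAffine.Point, 2 • T = 0 ∧ rOf T = e := by
  have ha0 : ρ.a ≠ 0 := by
    intro h
    have := ρ.ha
    rw [h] at this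
    norm_num at this
  have hns : (E K).toAffine.Nonsingular (-ρ.a / 2) (-1 / 2) := by
    rw [WeierstrassCurve.Affine.nonsingular_iff, WeierstrassCurve.Affine.equation_iff]
    refine ⟨?_, ?_⟩
    · simp only [E]
      have := ρ.ha
      field_simp
      linear_combination this
    · left
      simp only [E]
      have : (3 : K) * (-ρ.a / 2) ^ 2 ≠ 0 := by
        apply mul_ne_zero (by norm_num)
        apply pow_ne_zero
        exact div_ne_zero (neg_ne_zero.mpr ha0) two_ne_zero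
      simpa using this.symm
  have hy : (2 : K) * (-1 / 2) + 1 = 0 := by norm_num
  refine ⟨.some _ _ hns, ?_, ?_⟩
  · rw [two_nsmul]
    apply WeierstrassCurve.Affine.Point.add_self_of_Y_eq
    simp only [WeierstrassCurve.Affine.negY, E]
    norm_num
  · have hr : rOf (.some _ _ hns) = trip (-1 / 3) (-1 / (3 * (-ρ.a / 2)))
        (1 / (6 * (-ρ.a / 2) ^ 2)) := by
      simp only [rOf]
      rw [if_pos hy]
    rw [hr]
    apply evR_ext ρ
    · rw [ha, evR_trip]
      simp only [RingHom.id_apply]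
      field_simp
      ring
    · rw [hb, evR_trip]
      simp only [RingHom.id_apply]
      have h1 := a4_quad ρ.ha ρ.hb ρ.hab
      field_simp
      linear_combination (12 : K) * h1
    · rw [hc, evR_trip]
      simp only [RingHom.id_apply]
      have h1 := a4_quad ρ.ha ρ.hc ρ.hac
      field_simp
      linear_combination (12 : K) * h1

theorem exists_tors {K : Type} [Field K] [CharZero K] (ρ : Roots K) (e : R K) (he : e ^ 2 = 1)
    (hn : Algebra.norm K e = 1) : ∃ T : (E K).toAffine.Point, 2 • T = 0 ∧ rOf T = e := by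
  rw [norm_eq_prod ρ] at hn
  have h : ∀ (r : K) (hr : r ^ 3 = 2), evR (RingHom.id K) r hr e = 1 ∨
      evR (RingHom.id K) r hr e = -1 := by
    intro r hr
    apply sq_eq_sq_iff_eq_or_eq_neg.mp
    rw [← map_pow, he, map_one, one_pow]
  rcases h ρ.a ρ.ha with ha | ha <;> rcases h ρ.b ρ.hb with hb | hb <;>
    rcases h ρ.c ρ.hc with hc | hc
  · refine ⟨0, by simp, ?_⟩
    have h0 : rOf (0 : (E K).toAffine.Point) = 1 := rfl
    rw [h0]
    apply evR_ext ρ
    · rw [ha, map_one]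
    · rw [hb, map_one]
    · rw [hc, map_one]
  · exfalso; rw [ha, hb, hc] at hn; norm_num at hn
  · exfalso; rw [ha, hb, hc] at hn; norm_num at hn
  · exact a4_exists ρ e ha hb hc
  · exfalso; rw [ha, hb, hc] at hn; norm_num at hn
  · exact a4_exists ⟨ρ.b, ρ.a, ρ.c, ρ.hb, ρ.ha, ρ.hc, ρ.hab.symm, ρ.hbc, ρ.hac⟩ e hb ha hc
  · exact a4_exists ⟨ρ.c, ρ.a, ρ.b, ρ.hc, ρ.ha, ρ.hb, ρ.hac.symm, ρ.hbc.symm, ρ.hab⟩ e hc ha hb
  · exfalso; rw [ha, hb, hc] at hn; norm_num at hn

end CM27
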