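import Pool.Agent.MP_9ab903_nt.SB.SDefs

set_option autoImplicit false

open Polynomial NumberField IsDedekindDomain
open scoped Classical

namespace CM27

/-! ## [SBS-PAR] parity (file PAR.lean) -/

theorem par_natCast_le {C : Type} [Field C] (w : Valuation C (WithZero (Multiplicative ℤ)))
    (n : ℕ) : w (n : C) ≤ 1 := by
  induction n with
  | zero => simp
  | succ n ih =>
    push_cast
    exact (w.map_add _ _).trans (max_le ih (by simp))

/-- `(1 + x p²)(1 - x p² + x² p⁴) = (2 y + 1)²`, `(1 + x p²)² - (1 - x p² + x² p⁴) = 3 x p²` -/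
theorem parity {C : Type} [Field C] (w : Valuation C (WithZero (Multiplicative ℤ)))
    (h6 : w 6 = 1) (p x y : C) (hp : p ^ 3 = 2) (h : y ^ 2 + y = x ^ 3) :
    IsSquare (w (1 + x * p ^ 2)) := by
  have h2le : w 2 ≤ 1 := by exact_mod_cast par_natCast_le w 2
  have h3le : w 3 ≤ 1 := by exact_mod_cast par_natCast_le w 3
  have h23 : w 2 * w 3 = 1 := by
    rw [← map_mul, ← h6]; congr 1; norm_num
  have h2 : w 2 = 1 := by
    refine le_antisymm h2le ?_
    calc (1 : WithZero (Multiplicative ℤ)) = w 2 * w 3 := h23.symm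
      _ ≤ w 2 * 1 := mul_le_mul_right h3le _
      _ = w 2 := mul_one _
  have h3 : w 3 = 1 := by rw [h2, one_mul] at h23; exact h23
  have hwp : w p = 1 := by
    have : w p ^ 3 = 1 := by rw [← map_pow, hp, h2]
    exact (pow_eq_one_iff_of_nonneg zero_le (by norm_num)).1 this
  have hAB : (1 + x * p ^ 2) * (1 - x * p ^ 2 + x ^ 2 * p ^ 4) = (2 * y + 1) ^ 2 := by
    have : (1 + x * p ^ 2) * (1 - x * p ^ 2 + x ^ 2 * p ^ 4) = 1 + x ^ 3 * (p ^ 3) ^ 2 := by ring
    rw [this, hp, ← h]
    ring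
  have hABw : w (1 + x * p ^ 2) * w (1 - x * p ^ 2 + x ^ 2 * p ^ 4) = w (2 * y + 1) ^ 2 := by
    rw [← map_mul, hAB, map_pow]
  have hxp : w (x * p ^ 2) = w x := by rw [map_mul, map_pow, hwp, one_pow, mul_one]
  rcases lt_or_ge 1 (w x) with hx | hx
  · have hA : w (1 + x * p ^ 2) = w x := by
      rw [Valuation.map_add_eq_of_lt_right, hxp]
      rw [hxp, map_one]
      exact hx
    have hx0 : w x ≠ 0 := by
      intro h0
      rw [h0] at hx
      exact absurd hx (by simp)
    have hx2 : w x < w x ^ 2 := by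
      rw [pow_two]
      calc w x = 1 * w x := (one_mul _).symm
        _ < w x * w x := by
          exact mul_lt_mul_of_pos_right hx (zero_lt_iff.2 hx0)
    have hB : w (1 - x * p ^ 2 + x ^ 2 * p ^ 4) = w x ^ 2 := by
      have e : w (x ^ 2 * p ^ 4) = w x ^ 2 := by
        rw [map_mul, map_pow, map_pow, hwp, one_pow, mul_one]
      rw [Valuation.map_add_eq_of_lt_right, e]
      rw [e]
      calc w (1 - x * p ^ 2) ≤ max (w 1) (w (x * p ^ 2)) := w.map_sub _ _
        _ = w x := by rw [map_one, hxp, max_eq_right hx.le]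
        _ < w x ^ 2 := hx2
    rw [hA, hB] at hABw
    rw [hA]
    refine ⟨w (2 * y + 1) / w x, ?_⟩
    rw [div_mul_div_comm, ← pow_two, ← hABw]
    field_simp
  · have hA : w (1 + x * p ^ 2) ≤ 1 := by
      calc w (1 + x * p ^ 2) ≤ max (w 1) (w (x * p ^ 2)) := w.map_add _ _
        _ ≤ 1 := by rw [map_one, hxp]; exact max_le le_rfl hx
    rcases eq_or_lt_of_le hA with h1 | h1
    · rw [h1]; exact ⟨1, by simp⟩
    · have hx1 : w (x * p ^ 2) = 1 := by
        have e : x * p ^ 2 = (1 + x * p ^ 2) - 1 := by ring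
        rw [e, Valuation.map_sub_eq_of_lt_right, map_one]
        rw [map_one]; exact h1
      have hB : w (1 - x * p ^ 2 + x ^ 2 * p ^ 4) = 1 := by
        have e : 1 - x * p ^ 2 + x ^ 2 * p ^ 4 = (1 + x * p ^ 2) ^ 2 - 3 * (x * p ^ 2) := by ring
        have e3 : w (3 * (x * p ^ 2)) = 1 := by rw [map_mul, h3, hx1, mul_one]
        rw [e, Valuation.map_sub_eq_of_lt_right, e3]
        rw [e3, map_pow]
        exact pow_lt_one₀ zero_le h1 (by norm_num)
      rw [hB, mul_one] at hABw
      rw [hABw]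
      exact ⟨w (2 * y + 1), pow_two _⟩

end CM27
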