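import Pool.Agent.MP_9ab903_nt.SB.SDefs
import Pool.Agent.MP_ae0bd0_nt.CM.R1

set_option autoImplicit false

open Polynomial NumberField IsDedekindDomain
open scoped Classical

namespace CM27

/-! ## [SBS-U] the local condition at `2` (file U.lean) -/

theorem u_mul_sq {K : Type} [Field K] (z1 z2 z3 x1 x2 x3 : K) :
    trip z1 z2 z3 * trip x1 x2 x3 ^ 2 =
      trip (z1 * (x1 ^ 2 + 4 * x2 * x3) + 2 * z2 * (x2 ^ 2 + 2 * x1 * x3) +
          2 * z3 * (2 * x1 * x2 + 2 * x3 ^ 2))
        (z1 * (2 * x1 * x2 + 2 * x3 ^ 2) + z2 * (x1 ^ 2 + 4 * x2 * x3) +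
          2 * z3 * (x2 ^ 2 + 2 * x1 * x3))
        (z1 * (x2 ^ 2 + 2 * x1 * x3) + z2 * (2 * x1 * x2 + 2 * x3 ^ 2) +
          z3 * (x1 ^ 2 + 4 * x2 * x3)) := by
  have h := pr_pow K
  simp only [trip, map_add, map_mul, map_pow, map_ofNat]
  set p := pr K
  set a1 := algebraMap K (R K) z1
  set a2 := algebraMap K (R K) z2
  set a3 := algebraMap K (R K) z3
  set b1 := algebraMap K (R K) x1
  set b2 := algebraMap K (R K) x2
  set b3 := algebraMap K (R K) x3
  linear_combination ((a1 * (2 * b2 * b3) + a2 * (b2 ^ 2 + 2 * b1 * b3) + a3 * (2 * b1 * b2)) +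
    (a1 * b3 ^ 2 + a2 * (2 * b2 * b3) + a3 * (b2 ^ 2 + 2 * b1 * b3)) * p +
    (a2 * b3 ^ 2 + a3 * (2 * b2 * b3)) * p ^ 2 + a3 * b3 ^ 2 * (p ^ 3 + 2)) * h

theorem u_eqn {K : Type} [Field K] {x y : K} (h : (E K).toAffine.Nonsingular x y) :
    y ^ 2 + y = x ^ 3 := by
  have h1 := h.1
  rw [WeierstrassCurve.Affine.equation_iff] at h1
  simpa [E] using h1

theorem u_exists_exp {g : WithZero (Multiplicative ℤ)} (h : g ≠ 0) :
    ∃ k : ℤ, g = WithZero.exp k := ⟨WithZero.log g, (WithZero.exp_log h).symm⟩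

/-- images of points -/
theorem inU2_zOf {C : Type} [Field C] (w : Valuation C (WithZero (Multiplicative ℤ)))
    (h2 : w 2 = WithZero.exp (-1)) (P : (E C).toAffine.Point) :
    ∃ (u : R C) (a b c : C), IsUnit u ∧ zOf P * u ^ 2 = trip a b c ∧ w (a - 1) < 1 ∧ w b < 1 ∧
      w c ≤ 1 := by
  have h20 : (2 : C) ≠ 0 := by
    intro h
    rw [h, map_zero] at h2
    exact WithZero.exp_ne_zero h2.symm
  rcases P with _ | ⟨x, y, hxy⟩
  · refine ⟨1, 1, 0, 0, isUnit_one, ?_, ?_, ?_, ?_⟩
    · change (1 : R C) * 1 ^ 2 = _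
      simp [trip]
    · rw [sub_self, map_zero]
      exact zero_lt_one
    · rw [map_zero]
      exact zero_lt_one
    · rw [map_zero]
      exact zero_le_one
  · have he := u_eqn hxy
    rcases le_or_gt (w x) 1 with hx | hx
    · refine ⟨1, 1, 0, x, isUnit_one, ?_, ?_, ?_, hx⟩
      · change trip 1 0 x * 1 ^ 2 = _
        rw [one_pow, mul_one]
      · rw [sub_self, map_zero]
        exact zero_lt_one
      · rw [map_zero]
        exact zero_lt_one
    · -- the valuation of `y`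
      have hx3 : 1 < w (x ^ 3) := by
        rw [map_pow]
        exact one_lt_pow₀ hx (by norm_num)
      have hy : 1 < w y := by
        by_contra hy
        rw [not_lt] at hy
        rw [← he] at hx3
        refine absurd hx3 (not_lt.2 ((w.map_add _ _).trans (max_le ?_ hy)))
        rw [map_pow]
        exact pow_le_one' hy 2
      have hy2 : w (y ^ 2 + y) = w (y ^ 2) := by
        apply Valuation.map_add_eq_of_lt_left
        rw [map_pow, sq]
        exact lt_mul_of_one_lt_left (zero_lt_one.trans hy) hy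
      have hx0 : x ≠ 0 := by
        rintro rfl
        rw [map_zero] at hx
        exact absurd hx (not_lt.2 zero_le_one)
      have hy0 : y ≠ 0 := by
        rintro rfl
        rw [map_zero] at hy
        exact absurd hy (not_lt.2 zero_le_one)
      obtain ⟨m, hm⟩ := u_exists_exp (show w x ≠ 0 from (w.ne_zero_iff).2 hx0)
      obtain ⟨l, hl⟩ := u_exists_exp (show w y ≠ 0 from (w.ne_zero_iff).2 hy0)
      rw [he, map_pow, map_pow, hm, hl, ← WithZero.exp_nsmul, ← WithZero.exp_nsmul,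
        WithZero.exp_inj] at hy2
      simp only [nsmul_eq_mul, Nat.cast_ofNat] at hy2
      rw [hm, ← WithZero.exp_zero, WithZero.exp_lt_exp] at hx
      rw [hl, ← WithZero.exp_zero, WithZero.exp_lt_exp] at hy
      set t : C := x / (2 * y) with ht
      have ht0 : t ≠ 0 := div_ne_zero hx0 (mul_ne_zero h20 hy0)
      have ht2 : w t = WithZero.exp (m + 1 - l) := by
        rw [ht, map_div₀, map_mul, hm, hl, h2, ← WithZero.exp_add, ← WithZero.exp_sub]
        congr 1
        ring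
      refine ⟨trip 0 0 t, 4 * x * t ^ 2, 2 * t ^ 2, 0, ?_, ?_, ?_, ?_, ?_⟩
      · refine IsUnit.of_mul_eq_one (trip 0 (1 / (2 * t)) 0) ?_
        have hp := pr_pow C
        simp only [trip, map_zero, zero_mul, zero_add, add_zero]
        have h3 : algebraMap C (R C) t * algebraMap C (R C) (1 / (2 * t)) * 2 = 1 := by
          have h4 : t * (1 / (2 * t)) * 2 = 1 := by field_simp
          have h5 := congrArg (algebraMap C (R C)) h4
          rwa [map_mul, map_mul, map_ofNat, map_one] at h5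
        linear_combination (algebraMap C (R C) t * algebraMap C (R C) (1 / (2 * t))) * hp + h3
      · change trip 1 0 x * trip 0 0 t ^ 2 = _
        rw [u_mul_sq]
        congr 1 <;> ring
      · have h6 : 4 * x * t ^ 2 - 1 = 1 / y := by
          rw [ht]
          field_simp
          linear_combination -4 * he
        rw [h6, map_div₀, map_one, hl, ← WithZero.exp_zero, ← WithZero.exp_sub,
          WithZero.exp_lt_exp]
        omega
      · rw [map_mul, map_pow, ht2, h2, ← WithZero.exp_nsmul, ← WithZero.exp_add,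
          ← WithZero.exp_zero, WithZero.exp_lt_exp]
        simp only [nsmul_eq_mul, Nat.cast_ofNat]
        omega
      · rw [map_zero]
        exact zero_le_one

/-- approximation -/
theorem inU2_of_locCond (F : Type) [Field F] [NumberField F] (z : R F)
    (v : HeightOneSpectrum (𝓞 F)) (h2 : (2 : 𝓞 F) ∈ v.asIdeal) (h4 : (2 : 𝓞 F) ∉ v.asIdeal ^ 2)
    (h : LocCond z (v.adicCompletion F)) : InU2 (v.valuation F) z := by
  obtain ⟨P, u, ⟨u, rfl⟩, hz⟩ := h
  have hval : ∀ k : F, Valued.v (algebraMap F (v.adicCompletion F) k) = v.valuation F k :=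
    fun k => HeightOneSpectrum.valuedAdicCompletion_eq_valuation' v k
  have hv2 : v.valuation F 2 = WithZero.exp (-1) := by
    have h5 : v.valuation F (algebraMap (𝓞 F) F 2) = v.intValuation 2 :=
      HeightOneSpectrum.valuation_of_algebraMap v 2
    rw [map_ofNat] at h5
    rw [h5]
    have h6 : (2 : 𝓞 F) ≠ 0 := two_ne_zero
    obtain ⟨k, hk⟩ := u_exists_exp (v.intValuation_ne_zero 2 h6)
    have h7 := (v.intValuation_le_pow_iff_mem 2 1).2 (by simpa using h2)
    have h8 := mt (v.intValuation_le_pow_iff_mem 2 2).1 h4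
    rw [hk, WithZero.exp_le_exp] at h7 h8
    rw [hk]
    congr 1
    push_cast at h7 h8
    omega
  have hw2 : Valued.v (2 : v.adicCompletion F) = WithZero.exp (-1) := by
    rw [← hv2, ← hval, map_ofNat (algebraMap F (v.adicCompletion F)) 2]
  obtain ⟨u', a, b, c, -, h1, ha, hb, hc⟩ := inU2_zOf
    (Valued.v : Valuation (v.adicCompletion F) (WithZero (Multiplicative ℤ))) hw2 P
  obtain ⟨t1, t2, t3, ht⟩ := trip_surj ((↑u⁻¹ : R (v.adicCompletion F)) * u')
  obtain ⟨z1, z2, z3, rfl⟩ := trip_surj z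
  have h3 : mapR (algebraMap F (v.adicCompletion F)) (trip z1 z2 z3) * trip t1 t2 t3 ^ 2 =
      trip a b c := by
    rw [← h1, hz, ← ht, mul_pow]
    have h5 : (↑u : R (v.adicCompletion F)) * ↑u⁻¹ = 1 := u.mul_inv
    linear_combination (zOf P * u' ^ 2 * (↑u * ↑u⁻¹ + 1)) * h5
  rw [mapR_trip, u_mul_sq] at h3
  obtain ⟨e1, e2, e3⟩ := trip_inj h3
  rw [← e1] at ha
  rw [← e2] at hb
  rw [← e3] at hc
  -- the open set
  have hlt : IsOpen {x : v.adicCompletion F | Valued.v x < 1} := by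
    have := Valued.isOpen_ball (v.adicCompletion F) 1
    simpa only [Valuation.restrict_lt_one_iff] using this
  have hle : IsOpen {x : v.adicCompletion F | Valued.v x ≤ 1} :=
    Valued.isOpen_integer (v.adicCompletion F)
  set i := algebraMap F (v.adicCompletion F) with hi
  have hopen : IsOpen {x : v.adicCompletion F × v.adicCompletion F × v.adicCompletion F |
      Valued.v ((i z1 * (x.1 ^ 2 + 4 * x.2.1 * x.2.2) + 2 * i z2 * (x.2.1 ^ 2 + 2 * x.1 * x.2.2) +
          2 * i z3 * (2 * x.1 * x.2.1 + 2 * x.2.2 ^ 2)) - 1) < 1 ∧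
      Valued.v (i z1 * (2 * x.1 * x.2.1 + 2 * x.2.2 ^ 2) + i z2 * (x.1 ^ 2 + 4 * x.2.1 * x.2.2) +
          2 * i z3 * (x.2.1 ^ 2 + 2 * x.1 * x.2.2)) < 1 ∧
      Valued.v (i z1 * (x.2.1 ^ 2 + 2 * x.1 * x.2.2) + i z2 * (2 * x.1 * x.2.1 + 2 * x.2.2 ^ 2) +
          i z3 * (x.1 ^ 2 + 4 * x.2.1 * x.2.2)) ≤ 1} := by
    refine IsOpen.inter ?_ (IsOpen.inter ?_ ?_)
    · exact hlt.preimage (f := fun x : v.adicCompletion F × v.adicCompletion F × v.adicCompletion F
        => (i z1 * (x.1 ^ 2 + 4 * x.2.1 * x.2.2) + 2 * i z2 * (x.2.1 ^ 2 + 2 * x.1 * x.2.2) +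
          2 * i z3 * (2 * x.1 * x.2.1 + 2 * x.2.2 ^ 2)) - 1) (by fun_prop)
    · exact hlt.preimage (f := fun x : v.adicCompletion F × v.adicCompletion F × v.adicCompletion F
        => i z1 * (2 * x.1 * x.2.1 + 2 * x.2.2 ^ 2) + i z2 * (x.1 ^ 2 + 4 * x.2.1 * x.2.2) +
          2 * i z3 * (x.2.1 ^ 2 + 2 * x.1 * x.2.2)) (by fun_prop)
    · exact hle.preimage (f := fun x : v.adicCompletion F × v.adicCompletion F × v.adicCompletion F
        => i z1 * (x.2.1 ^ 2 + 2 * x.1 * x.2.2) + i z2 * (2 * x.1 * x.2.1 + 2 * x.2.2 ^ 2) +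
          i z3 * (x.1 ^ 2 + 4 * x.2.1 * x.2.2)) (by fun_prop)
  have hd : DenseRange (i : F → v.adicCompletion F) := HeightOneSpectrum.denseRange_algebraMap F v
  have hd3 := hd.prodMap (hd.prodMap hd)
  obtain ⟨⟨x1, x2, x3⟩, hx⟩ := hd3.exists_mem_open hopen ⟨(t1, t2, t3), ha, hb, hc⟩
  obtain ⟨hx1, hx2, hx3⟩ := hx
  refine ⟨trip x1 x2 x3, _, _, _, u_mul_sq z1 z2 z3 x1 x2 x3, ?_, ?_, ?_⟩
  · rw [← hval]
    simpa only [map_add, map_mul, map_pow, map_sub, map_one, map_ofNat, Prod.map_apply] using hx1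
  · rw [← hval]
    simpa only [map_add, map_mul, map_pow, map_sub, map_one, map_ofNat, Prod.map_apply] using hx2
  · rw [← hval]
    simpa only [map_add, map_mul, map_pow, map_sub, map_one, map_ofNat, Prod.map_apply] using hx3

end CM27
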