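import Pool.Agent.MP_9ab903_nt.SB.SDefs
import Pool.Agent.MP_9ab903_nt.SB.CO
import Pool.Agent.MP_ae0bd0_nt.CM.R1

set_option autoImplicit false

open Polynomial NumberField IsDedekindDomain
open scoped Classical

namespace CM27

/-! ## [SBS-V] the group `InU2` (file V.lean) -/

/-- the product of two elements in coordinates -/
theorem v_trip_mul {K : Type} [Field K] (a b c a' b' c' : K) :
    trip a b c * trip a' b' c' = trip (a * a' + 2 * b * c' + 2 * c * b')
      (a * b' + b * a' + 2 * c * c') (a * c' + c * a' + b * b') := by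
  have h := pr_pow K
  simp only [trip, map_add, map_mul, map_ofNat]
  linear_combination (algebraMap K (R K) b * algebraMap K (R K) c'
    + algebraMap K (R K) c * algebraMap K (R K) b'
    + algebraMap K (R K) c * algebraMap K (R K) c' * pr K) * h

theorem v_one {K : Type} [Field K] : (1 : R K) = trip 1 0 0 := by
  simp [trip]

section Val

variable {F : Type} [Field F] {w : Valuation F (WithZero (Multiplicative ℤ))}

theorem v_le_mul {x y : F} {m n : ℤ} (hx : w x ≤ WithZero.exp m) (hy : w y ≤ WithZero.exp n) :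
    w (x * y) ≤ WithZero.exp (m + n) := by
  rw [map_mul, WithZero.exp_add]
  exact mul_le_mul' hx hy

theorem v_le_sq {x : F} {m : ℤ} (hx : w x ≤ WithZero.exp m) :
    w (x ^ 2) ≤ WithZero.exp (2 * m) := by
  rw [sq, two_mul]
  exact v_le_mul hx hx

theorem v_mono {x : F} {m n : ℤ} (hx : w x ≤ WithZero.exp m) (h : m ≤ n) :
    w x ≤ WithZero.exp n := hx.trans (WithZero.exp_le_exp.2 h)

theorem v_lt_one_iff {x : WithZero (Multiplicative ℤ)} : x < 1 ↔ x ≤ WithZero.exp (-1) := by
  have h := WithZero.lt_mul_exp_iff_le (x := x) (y := WithZero.exp (-1)) WithZero.exp_ne_zero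
  rw [← WithZero.exp_add] at h
  simpa using h

theorem v_lt_of_sq {x : F} (hx : w (x ^ 2) ≤ WithZero.exp (-1)) : w x < 1 := by
  by_contra h
  have h1 : 1 ≤ w x := not_lt.1 h
  have h2 : 1 ≤ w (x ^ 2) := by
    rw [map_pow]
    exact one_le_pow₀ h1
  exact absurd (v_lt_one_iff.2 hx) (not_lt.2 h2)

theorem v_sq_of_two {x : F} (h2 : w 2 = WithZero.exp (-1))
    (hx : w (2 * x ^ 2) ≤ WithZero.exp (-2)) : w x < 1 := by
  apply v_lt_of_sq
  rw [map_mul, h2] at hx
  have h3 : (WithZero.exp (-2) : WithZero (Multiplicative ℤ))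
      = WithZero.exp (-1) * WithZero.exp (-1) := by
    rw [← WithZero.exp_add]
    norm_num
  rw [h3] at hx
  exact le_of_mul_le_mul_left hx WithZero.exp_pos

theorem v_core (h2 : w 2 = WithZero.exp (-1)) (a b c : F) (ha : w a ≤ 1) (hb : w b ≤ 1)
    (hc : w c ≤ 1)
    (h1 : w (2 * (b ^ 2 + 2 * a * c) - (a ^ 2 + 4 * b * c)) ≤ WithZero.exp (-2))
    (h3 : w ((a ^ 2 + 4 * b * c) - (2 * a * b + 2 * c ^ 2)) ≤ WithZero.exp (-3)) :
    w a < 1 ∧ w b < 1 ∧ w c < 1 := by
  have h2' : w 2 ≤ WithZero.exp (-1) := h2.le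
  have h4 : w 4 ≤ WithZero.exp (-2) := by
    have := v_le_mul h2' h2'
    have e : (2 : F) * 2 = 4 := by norm_num
    rw [e] at this
    exact v_mono this (by norm_num)
  have a0 : w a ≤ WithZero.exp 0 := ha
  have b0 : w b ≤ WithZero.exp 0 := hb
  have c0 : w c ≤ WithZero.exp 0 := hc
  have hac : w (4 * a * c) ≤ WithZero.exp (-2) := by
    simpa using v_le_mul (v_le_mul h4 a0) c0
  have hbc : w (4 * b * c) ≤ WithZero.exp (-2) := by
    simpa using v_le_mul (v_le_mul h4 b0) c0
  have hb2 : w (2 * b ^ 2) ≤ WithZero.exp (-1) := by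
    simpa using v_le_mul h2' (v_le_sq b0)
  -- `a`
  have ha1 : w a < 1 := by
    apply v_lt_of_sq
    have e : a ^ 2 = 2 * b ^ 2 + 4 * a * c - 4 * b * c
        - (2 * (b ^ 2 + 2 * a * c) - (a ^ 2 + 4 * b * c)) := by ring
    rw [e]
    exact w.map_sub_le (w.map_sub_le (w.map_add_le hb2 (v_mono hac (by norm_num)))
      (v_mono hbc (by norm_num))) (v_mono h1 (by norm_num))
  have ha1' : w a ≤ WithZero.exp (-1) := v_lt_one_iff.1 ha1
  have ha2 : w (a ^ 2) ≤ WithZero.exp (-2) := by simpa using v_le_sq ha1'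
  have hab : w (2 * a * b) ≤ WithZero.exp (-2) := by
    have := v_le_mul (v_le_mul h2' ha1') b0
    exact v_mono this (by norm_num)
  have hc1 : w c < 1 := by
    apply v_sq_of_two h2
    have e : 2 * c ^ 2 = a ^ 2 + 4 * b * c - 2 * a * b
        - ((a ^ 2 + 4 * b * c) - (2 * a * b + 2 * c ^ 2)) := by ring
    rw [e]
    exact w.map_sub_le (w.map_sub_le (w.map_add_le ha2 hbc) hab) (v_mono h3 (by norm_num))
  have hb1 : w b < 1 := by
    apply v_sq_of_two h2
    have e : 2 * b ^ 2 = (2 * (b ^ 2 + 2 * a * c) - (a ^ 2 + 4 * b * c)) - 4 * a * c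
        + a ^ 2 + 4 * b * c := by ring
    rw [e]
    exact w.map_add_le (w.map_add_le (w.map_sub_le h1 hac) ha2) hbc
  exact ⟨ha1, hb1, hc1⟩

end Val

theorem InU2.mul {F : Type} [Field F] {w : Valuation F (WithZero (Multiplicative ℤ))}
    (h2 : w 2 < 1) {z z' : R F} (h : InU2 w z) (h' : InU2 w z') : InU2 w (z * z') := by
  obtain ⟨u, a, b, c, h, ha, hb, hc⟩ := h
  obtain ⟨u', a', b', c', h', ha', hb', hc'⟩ := h'
  refine ⟨u * u', a * a' + 2 * b * c' + 2 * c * b', a * b' + b * a' + 2 * c * c',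
    a * c' + c * a' + b * b', ?_, ?_, ?_, ?_⟩
  · have e : z * z' * (u * u') ^ 2 = (z * u ^ 2) * (z' * u' ^ 2) := by ring
    rw [e, h, h', v_trip_mul]
  · have a1' : w a' ≤ 1 := by
      have : a' = (a' - 1) + 1 := by ring
      rw [this]
      exact w.map_add_le ha'.le (by simp)
    have e : a * a' + 2 * b * c' + 2 * c * b' - 1
        = (a - 1) * a' + (a' - 1) + 2 * b * c' + 2 * c * b' := by ring
    rw [e]
    refine w.map_add_lt (w.map_add_lt (w.map_add_lt ?_ ha') ?_) ?_
    · rw [map_mul]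
      exact mul_lt_one_of_lt_of_le ha a1'
    · rw [map_mul, map_mul]
      exact mul_lt_one_of_lt_of_le (mul_lt_one_of_lt_of_le h2 hb.le) hc'
    · rw [map_mul, map_mul]
      exact mul_lt_one_of_lt_of_le (mul_lt_one_of_lt_of_le h2 hc) hb'.le
  · have a1 : w a ≤ 1 := by
      have : a = (a - 1) + 1 := by ring
      rw [this]
      exact w.map_add_le ha.le (by simp)
    have a1' : w a' ≤ 1 := by
      have : a' = (a' - 1) + 1 := by ring
      rw [this]
      exact w.map_add_le ha'.le (by simp)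
    refine w.map_add_lt (w.map_add_lt ?_ ?_) ?_
    · rw [map_mul, mul_comm]
      exact mul_lt_one_of_lt_of_le hb' a1
    · rw [map_mul]
      exact mul_lt_one_of_lt_of_le hb a1'
    · rw [map_mul, map_mul]
      exact mul_lt_one_of_lt_of_le (mul_lt_one_of_lt_of_le h2 hc) hc'
  · have a1 : w a ≤ 1 := by
      have : a = (a - 1) + 1 := by ring
      rw [this]
      exact w.map_add_le ha.le (by simp)
    have a1' : w a' ≤ 1 := by
      have : a' = (a' - 1) + 1 := by ring
      rw [this]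
      exact w.map_add_le ha'.le (by simp)
    refine w.map_add_le (w.map_add_le ?_ ?_) ?_
    · rw [map_mul]
      exact mul_le_one' a1 hc'
    · rw [map_mul]
      exact mul_le_one' hc a1'
    · rw [map_mul]
      exact mul_le_one' hb.le hb'.le

theorem InU2.sq {F : Type} [Field F] (w : Valuation F (WithZero (Multiplicative ℤ)))
    (t : R F) (ht : IsUnit t) : InU2 w (t ^ 2) := by
  obtain ⟨v, rfl⟩ := ht
  refine ⟨((v⁻¹ : (R F)ˣ) : R F), 1, 0, 0, ?_, by simp, by simp, by simp⟩
  rw [← mul_pow, Units.mul_inv, one_pow, v_one]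

theorem InU2.mapR {F : Type} [Field F] {w w' : Valuation F (WithZero (Multiplicative ℤ))}
    (σ : F →+* F) (hw : ∀ x, w' x = w (σ x)) {z : R F} (h : InU2 w' z) :
    InU2 w (CM27.mapR σ z) := by
  obtain ⟨u, a, b, c, h, ha, hb, hc⟩ := h
  refine ⟨CM27.mapR σ u, σ a, σ b, σ c, ?_, ?_, ?_, ?_⟩
  · rw [← mapR_trip, ← h, map_mul, map_pow]
  · rwa [← map_one σ, ← map_sub, ← hw]
  · rwa [← hw]
  · rwa [← hw]

/-- `π - 1` is not in the group -/
theorem not_inU2 {F : Type} [Field F] (w : Valuation F (WithZero (Multiplicative ℤ)))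
    (h2 : w 2 = WithZero.exp (-1)) : ¬ InU2 w (pr F - 1) := by
  rintro ⟨u, a, b, c, h, ha, hb, hc⟩
  obtain ⟨a1, b1, c1, rfl⟩ := trip_surj u
  have hpr : pr F - 1 = trip (-1) 1 0 := by
    simp only [trip, map_neg, map_one, map_zero]
    ring
  rw [hpr, sq, v_trip_mul, v_trip_mul] at h
  obtain ⟨e1, e2, -⟩ := trip_inj h
  -- `a = 2 C - A`, `b = A - B`
  have e1' : 2 * (b1 ^ 2 + 2 * a1 * c1) - (a1 ^ 2 + 4 * b1 * c1) = a := by
    rw [← e1]; ring
  have e2' : (a1 ^ 2 + 4 * b1 * c1) - (2 * a1 * b1 + 2 * c1 ^ 2) = b := by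
    rw [← e2]; ring
  have h2lt : w 2 < 1 := v_lt_one_iff.2 h2.le
  have h20 : (2 : F) ≠ 0 := by
    rintro h0
    rw [h0, map_zero] at h2
    exact WithZero.exp_ne_zero h2.symm
  have hale : w a ≤ 1 := by
    have : a = (a - 1) + 1 := by ring
    rw [this]
    exact w.map_add_le ha.le (by simp)
  -- the maximum of the values
  set M := max (w a1) (max (w b1) (w c1)) with hM
  by_cases hM1 : M ≤ 1
  · have ha1 : w a1 ≤ 1 := (le_max_left _ _).trans hM1
    have hb1 : w b1 ≤ 1 := ((le_max_left _ _).trans (le_max_right _ _)).trans hM1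
    have hc1 : w c1 ≤ 1 := ((le_max_right _ _).trans (le_max_right _ _)).trans hM1
    have hB : w (2 * (a1 * b1 + c1 ^ 2)) < 1 := by
      rw [map_mul]
      refine mul_lt_one_of_lt_of_le h2lt (w.map_add_le ?_ ?_)
      · rw [map_mul]; exact mul_le_one' ha1 hb1
      · rw [map_pow]; exact pow_le_one' hc1 2
    have hA : w (a1 ^ 2 + 4 * b1 * c1) < 1 := by
      have : a1 ^ 2 + 4 * b1 * c1 = b + 2 * (a1 * b1 + c1 ^ 2) := by rw [← e2']; ring
      rw [this]
      exact w.map_add_lt hb hB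
    have hC : w (2 * (b1 ^ 2 + 2 * a1 * c1)) < 1 := by
      rw [map_mul]
      refine mul_lt_one_of_lt_of_le h2lt (w.map_add_le ?_ ?_)
      · rw [map_pow]; exact pow_le_one' hb1 2
      · rw [map_mul, map_mul]; exact mul_le_one' (mul_le_one' h2lt.le ha1) hc1
    have hone : w 1 < 1 := by
      have : (1 : F) = 2 * (b1 ^ 2 + 2 * a1 * c1) - (a1 ^ 2 + 4 * b1 * c1) - (a - 1) := by
        rw [e1']; ring
      rw [this]
      exact w.map_sub_lt (w.map_sub_lt hC hA) ha
    rw [map_one] at hone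
    exact lt_irrefl _ hone
  · have hM1' : 1 < M := not_le.1 hM1
    have hM0 : M ≠ 0 := (lt_trans zero_lt_one hM1').ne'
    set n := WithZero.log M with hn
    have hMn : WithZero.exp n = M := WithZero.exp_log hM0
    have hn1 : 1 ≤ n := by
      have : (0:ℤ) < n := by
        rw [← WithZero.exp_lt_exp, hMn]
        exact hM1'
      omega
    set t : F := 2 ^ n with ht
    have hwt : w t = WithZero.exp (-n) := by
      rw [ht, map_zpow₀, h2, ← WithZero.exp_zsmul]
      congr 1
      simp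
    have hwtM : w t * M = 1 := by
      rw [hwt, ← hMn, ← WithZero.exp_add]
      simp
    have key := v_core h2 (t * a1) (t * b1) (t * c1) ?_ ?_ ?_ ?_ ?_
    · obtain ⟨k1, k2, k3⟩ := key
      have : w t * M < 1 := by
        rw [map_mul] at k1 k2 k3
        rw [hM]
        rcases max_choice (w a1) (max (w b1) (w c1)) with h | h
        · rw [h]; exact k1
        · rw [h]
          rcases max_choice (w b1) (w c1) with h' | h'
          · rw [h']; exact k2
          · rw [h']; exact k3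
      rw [hwtM] at this
      exact lt_irrefl _ this
    · rw [map_mul, ← hwtM]
      exact mul_le_mul_right (le_max_left _ _) _
    · rw [map_mul, ← hwtM]
      exact mul_le_mul_right ((le_max_left _ _).trans (le_max_right _ _)) _
    · rw [map_mul, ← hwtM]
      exact mul_le_mul_right ((le_max_right _ _).trans (le_max_right _ _)) _
    · have e : 2 * ((t * b1) ^ 2 + 2 * (t * a1) * (t * c1)) - ((t * a1) ^ 2 + 4 * (t * b1) * (t * c1))
          = t ^ 2 * a := by rw [← e1']; ring
      rw [e]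
      have h5 : w a ≤ WithZero.exp 0 := hale
      exact v_mono (v_le_mul (v_le_sq hwt.le) h5) (by omega)
    · have e : (t * a1) ^ 2 + 4 * (t * b1) * (t * c1) - (2 * (t * a1) * (t * b1) + 2 * (t * c1) ^ 2)
          = t ^ 2 * b := by rw [← e2']; ring
      rw [e]
      have h5 : w b ≤ WithZero.exp (-1) := v_lt_one_iff.1 hb
      exact v_mono (v_le_mul (v_le_sq hwt.le) h5) (by omega)

end CM27
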