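import Pool.Agent.MP_9ab903_nt.SB.SDefs
import Pool.Agent.MP_9ab903_nt.SB.A1
import Pool.Agent.MP_ae0bd0_nt.CM.R1
import Pool.Agent.MP_ae0bd0_nt.CM.R2b

set_option autoImplicit false

open Polynomial NumberField IsDedekindDomain
open scoped Classical

namespace CM27

/-! ## [SBS-A3] more on `r` (file A3.lean) -/

theorem rOf_map {K L : Type} [Field K] [Field L] (f : K →+* L) (B : (E K).toAffine.Point) :
    mapR f (rOf B) = rOf (ptMap f B) := by
  cases B with
  | zero => simp only [ptMap, rOf, map_one]
  | some x y h =>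
    have h1 : 2 * f y + 1 = f (2 * y + 1) := by
      simp only [map_add, map_mul, map_ofNat, map_one]
    have h2 : 2 * f y + 1 = 0 ↔ 2 * y + 1 = 0 := by
      rw [h1, map_eq_zero]
    simp only [ptMap, rOf]
    by_cases h0 : 2 * y + 1 = 0
    · rw [if_pos h0, if_pos (h2.2 h0), mapR_trip]
      simp only [map_div₀, map_neg, map_mul, map_pow, map_one, map_ofNat]
    · rw [if_neg h0, if_neg (fun h3 => h0 (h2.1 h3)), mapR_trip, h1]
      simp only [map_div₀, map_neg, map_pow, map_one]

theorem tors_iff {K : Type} [Field K] [CharZero K] (T : (E K).toAffine.Point) :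
    2 • T = 0 ↔ T = 0 ∨ ∃ x y h, T = .some x y h ∧ 2 * y + 1 = 0 := by
  constructor
  · intro hT
    cases T with
    | zero => exact Or.inl rfl
    | some x y h =>
      right
      refine ⟨x, y, h, rfl, ?_⟩
      rw [two_nsmul] at hT
      have h1 := eq_neg_of_add_eq_zero_left hT
      rw [WeierstrassCurve.Affine.Point.neg_some, WeierstrassCurve.Affine.Point.some.injEq,
        a1_negY] at h1
      linear_combination h1.2
  · rintro (rfl | ⟨x, y, h, rfl, h0⟩)
    · exact smul_zero _
    · exact a1_two_tors h h0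

theorem a3_cube {K : Type} [Field K] {x y : K} (h : (E K).toAffine.Nonsingular x y)
    (h0 : 2 * y + 1 = 0) : 4 * x ^ 3 + 1 = 0 := by
  have h1 := a1_equation h
  rw [h0] at h1
  linear_combination -h1

theorem rOf_tors_norm {K : Type} [Field K] [CharZero K] (T : (E K).toAffine.Point)
    (hT : 2 • T = 0) : Algebra.norm K (rOf T) = 1 := by
  rcases (tors_iff T).1 hT with rfl | ⟨x, y, h, rfl, h0⟩
  · rw [a1_rOf_zero, map_one]
  · simp only [rOf, if_pos h0]
    rw [norm_trip]
    have hx := a1_x_ne h h0
    have h2 := a3_cube h h0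
    field_simp
    linear_combination (108 - 1512 * x ^ 3) * h2

theorem rOf_tors_sq {K : Type} [Field K] [CharZero K] (T : (E K).toAffine.Point)
    (hT : 2 • T = 0) : rOf T * rOf T = 1 := by
  rw [← sq, rOf_sq, hT, a1_zOf_zero]

theorem rOf_tors_inj {K : Type} [Field K] [CharZero K] (T T' : (E K).toAffine.Point)
    (hT : 2 • T = 0) (hT' : 2 • T' = 0) (h : rOf T = rOf T') : T = T' := by
  rcases (tors_iff T).1 hT with rfl | ⟨x, y, hx, rfl, h0⟩
  · rcases (tors_iff T').1 hT' with rfl | ⟨x', y', hx', rfl, h0'⟩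
    · rfl
    · exfalso
      simp only [rOf, if_pos h0'] at h
      rw [← a1_trip_one] at h
      have h1 := (trip_inj h).1
      norm_num at h1
  · rcases (tors_iff T').1 hT' with rfl | ⟨x', y', hx', rfl, h0'⟩
    · exfalso
      simp only [rOf, if_pos h0] at h
      rw [← a1_trip_one] at h
      have h1 := (trip_inj h).1
      norm_num at h1
    · simp only [rOf, if_pos h0, if_pos h0'] at h
      have h1 := (trip_inj h).2.1
      have hxn := a1_x_ne hx h0
      have hxn' := a1_x_ne hx' h0'
      have h2 : x = x' := by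
        field_simp at h1
        linear_combination h1
      have h3 : y = y' := by
        have h4 : (2 : K) * (y - y') = 0 := by linear_combination h0 - h0'
        rcases mul_eq_zero.1 h4 with h5 | h5
        · norm_num at h5
        · exact sub_eq_zero.1 h5
      subst h2
      subst h3
      rfl

theorem sba3_isUnit {K : Type} [Field K] (z : R K) (h : Algebra.norm K z ≠ 0) : IsUnit z := by
  obtain ⟨a, b, c, rfl⟩ := trip_surj z
  rw [norm_trip] at h
  set n : K := a ^ 3 + 2 * b ^ 3 + 4 * c ^ 3 - 6 * a * b * c with hn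
  refine IsUnit.of_mul_eq_one
    (trip ((a ^ 2 - 2 * b * c) / n) ((2 * c ^ 2 - a * b) / n) ((b ^ 2 - a * c) / n)) ?_
  rw [a1_trip_mul, ← a1_trip_one]
  congr 1
  · field_simp
    rw [hn]
    ring
  · field_simp
    ring
  · field_simp
    ring

theorem a3_bad {K : Type} [Field K] [CharZero K] (B : (E K).toAffine.Point)
    (h : ¬ IsUnit (rOf B)) : 4 • B = 0 := by
  have h1 : Algebra.norm K (rOf B) = 0 := by
    by_contra h2
    exact h (sba3_isUnit _ h2)
  have h2 : Algebra.norm K (zOf (2 • B)) = 0 := by
    rw [← rOf_sq, map_pow, h1]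
    norm_num
  have h3 : 2 • (2 • B) = 0 := by
    generalize 2 • B = T at h2
    cases T with
    | zero =>
      exfalso
      have h0 : (WeierstrassCurve.Affine.Point.zero : (E K).toAffine.Point) = 0 := rfl
      rw [h0, a1_zOf_zero, map_one] at h2
      exact one_ne_zero h2
    | some x y hxy =>
      rw [norm_zOf] at h2
      exact a1_two_tors hxy (pow_eq_zero_iff two_ne_zero |>.1 h2)
  rw [← mul_nsmul] at h3
  exact h3

/-- every point is the sum of a point of order `3` and a point `B'` such that `r(B')` is a unit -/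
theorem exists_unit_add {K : Type} [Field K] [CharZero K] (B : (E K).toAffine.Point)
    (R : (E K).toAffine.Point) (hR : R ≠ 0) (hR3 : 3 • R = 0) :
    IsUnit (rOf B) ∨ IsUnit (rOf (B + R)) := by
  by_contra hcon
  rw [not_or] at hcon
  have h1 := a3_bad B hcon.1
  have h2 := a3_bad (B + R) hcon.2
  rw [smul_add, h1, zero_add] at h2
  apply hR
  have h3 : (4 : ℕ) • R = 3 • R + R := by
    rw [show (4 : ℕ) = 3 + 1 from rfl, add_smul, one_smul]
  rw [h3, hR3, zero_add] at h2
  exact h2

end CM27
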