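import Pool.Agent.MP_9ab903_nt.SB.SDefs
import Pool.Agent.MP_ae0bd0_nt.CM.R1

set_option autoImplicit false

open Polynomial NumberField IsDedekindDomain
open scoped Classical

namespace CM27

/-! ## [SBS-D] divisibility by `2` over algebraically closed fields (file D.lean) -/

theorem exists_roots (K : Type) [Field K] [CharZero K] [IsAlgClosed K] : Nonempty (Roots K) := by
  obtain ⟨a, ha⟩ := IsAlgClosed.exists_pow_nat_eq (2 : K) (n := 3) (by norm_num)
  obtain ⟨s, hs⟩ := IsAlgClosed.exists_pow_nat_eq (-3 : K) (n := 2) (by norm_num)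
  have h2 : (2 : K) ≠ 0 := two_ne_zero
  have h3 : (3 : K) ≠ 0 := three_ne_zero
  obtain ⟨o, ho⟩ : ∃ o : K, o ^ 2 + o + 1 = 0 := by
    refine ⟨(-1 + s) / 2, ?_⟩
    field_simp
    linear_combination hs
  have ho3 : o ^ 3 = 1 := by linear_combination (o - 1) * ho
  have ha0 : a ≠ 0 := by
    rintro rfl
    rw [zero_pow (by norm_num)] at ha
    exact h2 ha.symm
  have ho1 : o ≠ 1 := by
    rintro rfl
    apply h3
    linear_combination ho
  have ho0 : o ≠ 0 := by
    rintro rfl
    rw [zero_pow (by norm_num)] at ho3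
    exact zero_ne_one ho3
  have ho2 : o ^ 2 ≠ 1 := by
    intro h
    apply ho1
    have h4 : o ^ 3 = o := by rw [pow_succ, h, one_mul]
    rw [← h4, ho3]
  refine ⟨⟨a, a * o, a * o ^ 2, ha, ?_, ?_, ?_, ?_, ?_⟩⟩
  · rw [mul_pow, ho3, ha, mul_one]
  · rw [mul_pow, ← pow_mul, mul_comm 2 3, pow_mul, ho3, ha, one_pow, mul_one]
  · intro h
    apply ho1
    have : a * 1 = a * o := by rw [mul_one]; exact h
    exact (mul_left_cancel₀ ha0 this).symm
  · intro h
    apply ho2
    have : a * 1 = a * o ^ 2 := by rw [mul_one]; exact h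
    exact (mul_left_cancel₀ ha0 this).symm
  · intro h
    have h1 := mul_left_cancel₀ ha0 h
    apply ho1
    have h4 : o * 1 = o * o := by rw [mul_one, ← pow_two]; exact h1
    exact (mul_left_cancel₀ ho0 h4).symm

theorem D_negY {K : Type} [Field K] (x y : K) : (E K).toAffine.negY x y = -y - 1 := by
  simp [WeierstrassCurve.Affine.negY, E]

theorem D_nonsing {K : Type} [Field K] [CharZero K] (x y : K) (h : (2 * y + 1) ^ 2 = 4 * x ^ 3 + 1) :
    (E K).toAffine.Nonsingular x y := by
  rw [WeierstrassCurve.Affine.nonsingular_iff]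
  refine ⟨?_, ?_⟩
  · rw [WeierstrassCurve.Affine.equation_iff]
    simp only [E]
    have h4 : (4 : K) ≠ 0 := by norm_num
    apply mul_left_cancel₀ h4
    linear_combination h
  · simp only [E]
    by_contra hcon
    push Not at hcon
    obtain ⟨h1, h2⟩ := hcon
    have h3 : (3 : K) ≠ 0 := three_ne_zero
    have h5 : x = 0 := by
      have h6 : 3 * x ^ 2 = 0 := by linear_combination -h1
      rcases mul_eq_zero.1 h6 with h | h
      · exact absurd h h3
      · exact pow_eq_zero_iff (two_ne_zero) |>.1 h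
    have h6 : 2 * y + 1 = 0 := by linear_combination h2
    rw [h5, h6] at h
    norm_num at h

theorem two_divisible {K : Type} [Field K] [CharZero K] [IsAlgClosed K]
    (Q : (E K).toAffine.Point) : ∃ P, Q = 2 • P := by
  rcases Q with _ | ⟨x, y, hQ⟩
  · exact ⟨0, (smul_zero 2).symm⟩
  · have h2 : (2 : K) ≠ 0 := two_ne_zero
    have h9 : (9 : K) ≠ 0 := by norm_num
    obtain ⟨X0, hX⟩ : ∃ X0 : K, X0 ^ 4 - 4 * x * X0 ^ 3 - 2 * X0 - x = 0 := by
      have hdeg : (X ^ 4 - C (4 * x) * X ^ 3 - C 2 * X - C x : K[X]).natDegree = 4 := by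
        compute_degree!
      obtain ⟨r, hr⟩ := IsAlgClosed.exists_root (X ^ 4 - C (4 * x) * X ^ 3 - C 2 * X - C x : K[X])
        (by
          intro h
          rw [Polynomial.degree_eq_natDegree (by
            intro h0
            rw [h0, natDegree_zero] at hdeg
            norm_num at hdeg), hdeg] at h
          norm_num at h)
      refine ⟨r, ?_⟩
      simpa [IsRoot.def] using hr
    have hne : 4 * X0 ^ 3 + 1 ≠ 0 := by
      intro h
      have h1 : 9 * X0 = 0 := by
        linear_combination (X0 - 4 * x) * h - 4 * hX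
      have h3 : X0 = 0 := by
        rcases mul_eq_zero.1 h1 with h | h
        · exact absurd h h9
        · exact h
      rw [h3] at h
      norm_num at h
    obtain ⟨t, ht⟩ := IsAlgClosed.exists_pow_nat_eq (4 * X0 ^ 3 + 1 : K) (n := 2) (by norm_num)
    have ht0 : t ≠ 0 := by
      rintro rfl
      rw [zero_pow (by norm_num)] at ht
      exact hne ht.symm
    have hns : (E K).toAffine.Nonsingular X0 ((t - 1) / 2) := by
      apply D_nonsing
      rw [← ht]
      field_simp
      ring
    set P : (E K).toAffine.Point := .some X0 ((t - 1) / 2) hns with hP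
    have hY : (t - 1) / 2 ≠ (E K).toAffine.negY X0 ((t - 1) / 2) := by
      rw [D_negY]
      intro h
      apply ht0
      field_simp at h
      have h5 : 2 * t = 0 := by linear_combination h
      exact (mul_eq_zero.1 h5).resolve_left h2
    have hPP := WeierstrassCurve.Affine.Point.add_self_of_Y_ne (h₁ := hns) hY
    have hx : (E K).toAffine.addX X0 X0 ((E K).toAffine.slope X0 X0 ((t - 1) / 2) ((t - 1) / 2))
        = x := by
      rw [WeierstrassCurve.Affine.slope_of_Y_ne rfl hY, D_negY]
      simp only [WeierstrassCurve.Affine.addX, E]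
      have h3 : (3 * X0 ^ 2 + 2 * 0 * X0 + 0 - 0 * ((t - 1) / 2)) /
          ((t - 1) / 2 - (-((t - 1) / 2) - 1)) = 3 * X0 ^ 2 / t := by
        congr 1
        · ring
        · field_simp
          ring
      rw [h3]
      have h4 : t ^ 2 * ((3 * X0 ^ 2 / t) ^ 2 + 0 * (3 * X0 ^ 2 / t) - 0 - X0 - X0) = t ^ 2 * x := by
        have h5 : t ^ 2 * (3 * X0 ^ 2 / t) ^ 2 = 9 * X0 ^ 4 := by
          field_simp
          ring
        linear_combination h5 - (2 * X0 + x) * ht + hX
      exact mul_left_cancel₀ (pow_ne_zero 2 ht0) h4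
    have h2P : 2 • P = P + P := two_nsmul P
    rcases (WeierstrassCurve.Affine.Point.X_eq_iff (h₁ := hQ)
      (h₂ := WeierstrassCurve.Affine.nonsingular_add hns hns fun hxy => hY hxy.right)).1 hx.symm
      with h | h
    · exact ⟨P, by rw [h2P, h]; exact hPP.symm⟩
    · refine ⟨-P, ?_⟩
      rw [smul_neg, h2P, h]
      congr 1
      exact hPP.symm

end CM27
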