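import Pool.Agent.MP_9ab903_nt.SB.PAR
import Pool.Agent.MP_9ab903_nt.SB.CO
import Pool.Agent.MP_ae0bd0_nt.CM.R1

set_option autoImplicit false

open Polynomial NumberField IsDedekindDomain
open scoped Classical

namespace CM27

/-! ## [SBS-EV] even valuations outside `6` (file EV.lean; uses PAR, CO) -/

theorem ev_equation {K : Type} [Field K] {x y : K} (h : (E K).toAffine.Nonsingular x y) :
    y ^ 2 + y = x ^ 3 := by
  have h1 := (WeierstrassCurve.Affine.equation_iff _ _).1 h.1
  simp only [E] at h1
  linear_combination h1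

theorem even_of_locCond (F : Type) [Field F] [NumberField F] [Fact (Irreducible (cubPoly F))]
    (z : R F) (hz : ∀ v : HeightOneSpectrum (𝓞 F), LocCond z (v.adicCompletion F))
    (P : HeightOneSpectrum (𝓞 (R F))) (hP : (6 : 𝓞 (R F)) ∉ P.asIdeal) :
    IsSquare (P.valuation (R F) z) := by
  obtain ⟨v, -, φ, hφ⟩ := exists_below F (R F) P
  obtain ⟨Q, u, hu, hzu⟩ := hz v
  set ρ : P.adicCompletion (R F) := algebraMap (R F) (P.adicCompletion (R F)) (pr F) with hρ
  have hρ3 : ρ ^ 3 = 2 := by
    rw [hρ, ← map_pow, pr_pow, map_ofNat]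
  have hcomp : (evR φ ρ hρ3).comp (mapR (algebraMap F (v.adicCompletion F))) =
      algebraMap (R F) (P.adicCompletion (R F)) := by
    apply AdjoinRoot.ringHom_ext
    · refine RingHom.ext fun a => ?_
      change evR φ ρ hρ3 (mapR (algebraMap F (v.adicCompletion F)) (algebraMap F (R F) a)) =
        algebraMap (R F) (P.adicCompletion (R F)) (algebraMap F (R F) a)
      rw [mapR_algebraMap, ← hφ]
      exact AdjoinRoot.lift_of _
    · change evR φ ρ hρ3 (mapR (algebraMap F (v.adicCompletion F)) (pr F)) =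
        algebraMap (R F) (P.adicCompletion (R F)) (pr F)
      rw [mapR_pr]
      exact AdjoinRoot.lift_root _
  have hz1 : evR φ ρ hρ3 (mapR (algebraMap F (v.adicCompletion F)) z) =
      algebraMap (R F) (P.adicCompletion (R F)) z := congrArg (fun g : R F →+* _ => g z) hcomp
  set w : Valuation (P.adicCompletion (R F)) (WithZero (Multiplicative ℤ)) := Valued.v with hw
  have hwv : ∀ x : R F, w (algebraMap (R F) (P.adicCompletion (R F)) x) =
      P.valuation (R F) x := fun x => HeightOneSpectrum.valuedAdicCompletion_eq_valuation' P x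
  rw [← hwv, ← hz1, hzu, map_mul, map_pow, map_mul, map_pow]
  refine IsSquare.mul ?_ ⟨_, sq _⟩
  have h6 : w 6 = 1 := by
    have h1 := hwv 6
    rw [map_ofNat] at h1
    rw [h1]
    have h2 : P.valuation (R F) (algebraMap (𝓞 (R F)) (R F) 6) = 1 := by
      rw [HeightOneSpectrum.valuation_of_algebraMap]
      exact (P.intValuation_eq_one_iff).2 hP
    rwa [map_ofNat] at h2
  cases Q with
  | zero =>
    refine ⟨1, ?_⟩
    simp [zOf]
  | some x y h =>
    have h1 : evR φ ρ hρ3 (zOf (.some x y h)) = 1 + φ x * ρ ^ 2 := by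
      change evR φ ρ hρ3 (trip 1 0 x) = _
      rw [evR_trip, map_one, map_zero, zero_mul, add_zero]
    rw [h1]
    apply parity w h6 ρ (φ x) (φ y) hρ3
    rw [← map_pow, ← map_pow, ← ev_equation h, map_add]

end CM27
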