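import Pool.Agent.MP_ae0bd0_nt.CM.RDefs

/-!
# [SBS] definitions for the proof of `Sha(E/F)[2] = 0`, `E : y² + y = x³`
-/

set_option autoImplicit false

open Polynomial NumberField IsDedekindDomain
open scoped Classical

namespace CM27

/-- The function `r : E(K) → R K` with `r(B)² = zOf (2 B)` and `r(B + T) = r(B) r(T)` for `2 T = 0`. -/
noncomputable def rOf {K : Type} [Field K] : (E K).toAffine.Point → R K
  | .zero => 1
  | .some x y _ =>
    if 2 * y + 1 = 0 then trip (-1 / 3) (-1 / (3 * x)) (1 / (6 * x ^ 2))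
    else trip (1 / (2 * y + 1)) (-x ^ 2 / (2 * y + 1)) (-x / (2 * y + 1))

/-- `K` contains three cube roots of `2`. -/
structure Roots (K : Type) [Field K] where
  (a b c : K)
  ha : a ^ 3 = 2
  hb : b ^ 3 = 2
  hc : c ^ 3 = 2
  hab : a ≠ b
  hac : a ≠ c
  hbc : b ≠ c

/-- The evaluation of `R K` at a cube root of `2` in an extension. -/
noncomputable def evR {K L : Type} [Field K] [Field L] (f : K →+* L) (ρ : L) (h : ρ ^ 3 = 2) :
    R K →+* L :=
  AdjoinRoot.lift f ρ (by rw [eval₂_cubPoly, h, sub_self])

theorem evR_trip {K L : Type} [Field K] [Field L] (f : K →+* L) (ρ : L) (h : ρ ^ 3 = 2)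
    (a b c : K) : evR f ρ h (trip a b c) = f a + f b * ρ + f c * ρ ^ 2 := by
  have h1 : evR f ρ h (pr K) = ρ := AdjoinRoot.lift_root _
  have h2 : ∀ x : K, evR f ρ h (algebraMap K (R K) x) = f x := fun x => AdjoinRoot.lift_of _
  simp only [trip, map_add, map_mul, map_pow, h1, h2]

/-- The local condition at an extension `L` of `F`: the class of `z` is the class of a point. -/
def LocCond {F : Type} [Field F] (z : R F) (L : Type) [Field L] [Algebra F L] : Prop :=
  ∃ (P : (E L).toAffine.Point) (u : R L), IsUnit u ∧ mapR (algebraMap F L) z = zOf P * u ^ 2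

/-- `z` lies in the group generated by the squares and the `a + b π + c π²` with
`a ≡ 1, b ≡ 0 mod 𝔪` and `c` integral, with respect to the valuation `w`. -/
def InU2 {F : Type} [Field F] (w : Valuation F (WithZero (Multiplicative ℤ))) (z : R F) : Prop :=
  ∃ (u : R F) (a b c : F), z * u ^ 2 = trip a b c ∧ w (a - 1) < 1 ∧ w b < 1 ∧ w c ≤ 1

instance numberFieldRF {F : Type} [Field F] [NumberField F] [Fact (Irreducible (cubPoly F))] :
    NumberField (R F) where
  to_charZero := charZeroR
  to_finiteDimensional := Module.Finite.trans F (R F)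

/-- The elements of `R F` which satisfy the conditions of a Selmer element outside `3` and the
places with bad ramification. -/
structure Good {F : Type} [Field F] [NumberField F] [Fact (Irreducible (cubPoly F))]
    (z : R F) : Prop where
  ne : z ≠ 0
  norm : ∃ n : F, Algebra.norm F z = n ^ 2
  even : ∀ P : HeightOneSpectrum (𝓞 (R F)), (6 : 𝓞 (R F)) ∉ P.asIdeal →
    IsSquare (P.valuation (R F) z)
  two : ∀ v : HeightOneSpectrum (𝓞 F), (2 : 𝓞 F) ∈ v.asIdeal → (2 : 𝓞 F) ∉ v.asIdeal ^ 2 →
    InU2 (v.valuation F) z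

/-- locally constant crossed homomorphisms (for the points of `E` with the maps `ptMap`) -/
structure Coc (F L : Type) [Field F] [Field L] [Algebra F L]
    (c : (L ≃ₐ[F] L) → (E L).toAffine.Point) : Prop where
  loc : IsLocallyConstant c
  crossed : ∀ σ τ : L ≃ₐ[F] L, c (σ * τ) = c σ + ptMap (σ : L →+* L) (c τ)

end CM27
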