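import Pool.Agent.MP_9ab903_nt.SB.G
import Pool.Agent.MP_9ab903_nt.SB.FX
import Pool.Agent.MP_9ab903_nt.SB.UR
import Pool.Agent.MP_9ab903_nt.SB.EV
import Pool.Agent.MP_9ab903_nt.SB.U
import Pool.Agent.MP_ae0bd0_nt.CM.R3
import Pool.Agent.MP_ae0bd0_nt.CM.R4c
import Pool.Agent.MP_ae0bd0_nt.CM.R4e
import Pool.Agent.MP_ae0bd0_nt.CM.R8

set_option autoImplicit false

open Polynomial NumberField IsDedekindDomain
open scoped Classical

namespace CM27

/-! ## [SBS-SEL] the Selmer group is trivial (file SEL.lean) -/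

theorem sel_mapR_id {K : Type} [Field K] (z : R K) : mapR (RingHom.id K) z = z := by
  obtain ⟨a, b, c, rfl⟩ := trip_surj z
  rw [mapR_trip]
  rfl

theorem sel_mapR_comp {K L M : Type} [Field K] [Field L] [Field M] (f : K →+* L) (g : L →+* M)
    (z : R K) : mapR g (mapR f z) = mapR (g.comp f) z := by
  obtain ⟨a, b, c, rfl⟩ := trip_surj z
  rw [mapR_trip, mapR_trip, mapR_trip]
  rfl

theorem sel_mapR_injective {K L : Type} [Field K] [Field L] (f : K →+* L) :
    Function.Injective (mapR f) := by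
  intro z z' h
  obtain ⟨a, b, c, rfl⟩ := trip_surj z
  obtain ⟨a', b', c', rfl⟩ := trip_surj z'
  rw [mapR_trip, mapR_trip] at h
  obtain ⟨h1, h2, h3⟩ := trip_inj h
  rw [f.injective h1, f.injective h2, f.injective h3]

/-- The norm, with the algebra structure of `AdjoinRoot`. -/
noncomputable def nrm {K : Type} [Field K] : R K →* K := Algebra.norm K

theorem nrm_rat (z : R ℚ) : Algebra.norm ℚ z = nrm z := by
  unfold nrm
  congr!

theorem nrm_eq {K : Type} [Field K] (z : R K) : Algebra.norm K z = nrm z := rfl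

theorem nrm_mapR {K L : Type} [Field K] [Field L] (f : K →+* L) (z : R K) :
    nrm (mapR f z) = f (nrm z) := norm_mapR f z

theorem nrm_trip {K : Type} [Field K] (a : K) : nrm (trip a 0 0) = a ^ 3 := by
  have h := norm_trip a 0 0
  rw [nrm_eq] at h
  rw [h]
  ring

theorem nrm_ne_zero {K : Type} [Field K] [Fact (Irreducible (cubPoly K))] {z : R K} (hz : z ≠ 0) :
    nrm z ≠ 0 := Algebra.norm_ne_zero_iff.2 hz

theorem trip_mul_self {K : Type} [Field K] (a b : K) : trip a 0 0 * trip b 0 0 = trip (a * b) 0 0 := by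
  simp [trip]

theorem trip_ne_zero {K : Type} [Field K] {a : K} (ha : a ≠ 0) : trip a 0 0 ≠ 0 := by
  intro h
  have h0 : trip (0 : K) 0 0 = 0 := by simp [trip]
  exact ha (trip_inj (h.trans h0.symm)).1

/-- The action of the automorphisms of `F` on the units of `R F`. -/
@[reducible] noncomputable def selAct (F : Type) [Field F] [NumberField F] :
    MulDistribMulAction (F ≃ₐ[ℚ] F) (R F)ˣ where
  smul σ z := Units.map (mapR (σ : F →+* F) : R F →* R F) z
  one_smul z := by
    ext
    exact sel_mapR_id _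
  mul_smul σ τ z := by
    ext
    exact (sel_mapR_comp (τ : F →+* F) (σ : F →+* F) _).symm
  smul_mul σ z z' := map_mul _ _ _
  smul_one σ := map_one _

theorem good_prime_odd {p : ℕ} (h : GoodPrime p) : p ≠ 2 ∧ p ≠ 3 := by
  obtain ⟨h1, h2, -⟩ := h
  constructor <;> rintro rfl <;> omega

theorem goodLevel_odd {m : ℕ} (hm : GoodLevel m) : Odd m := by
  rw [← Nat.not_even_iff_odd]
  intro h
  exact (good_prime_odd (hm.2 2 Nat.prime_two h.two_dvd)).1 rfl

/-- the primes which divide `6 m` -/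
theorem exists_prime_mem {m : ℕ} (hm : GoodLevel m) (v : HeightOneSpectrum (𝓞 (R ℚ)))
    (hv : ((6 * m : ℕ) : 𝓞 (R ℚ)) ∈ v.asIdeal) :
    ∃ p : ℕ, (p = 2 ∨ p = 3 ∨ GoodPrime p) ∧ (p : 𝓞 (R ℚ)) ∈ v.asIdeal := by
  have hp := v.isPrime
  push_cast at hv
  rcases hp.mem_or_mem hv with h | h
  · have h6 : (6 : 𝓞 (R ℚ)) = 2 * 3 := by norm_num
    rw [h6] at h
    rcases hp.mem_or_mem h with h | h
    · exact ⟨2, Or.inl rfl, by exact_mod_cast h⟩
    · exact ⟨3, Or.inr (Or.inl rfl), by exact_mod_cast h⟩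
  · have key : ∀ k : ℕ, k ∣ m → (k : 𝓞 (R ℚ)) ∈ v.asIdeal →
        ∃ p : ℕ, GoodPrime p ∧ (p : 𝓞 (R ℚ)) ∈ v.asIdeal := by
      intro k
      induction k using Nat.recOnMul with
      | zero =>
        intro h0 _
        have := hm.1.ne_zero
        exact absurd (zero_dvd_iff.1 h0) this
      | one =>
        intro _ h1
        rw [Nat.cast_one] at h1
        exact absurd ((Ideal.eq_top_iff_one _).2 h1) hp.ne_top
      | prime p hp' =>
        intro h1 h2
        exact ⟨p, hm.2 p hp' h1, h2⟩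
      | mul a b iha ihb =>
        intro h1 h2
        push_cast at h2
        rcases hp.mem_or_mem h2 with h3 | h3
        · exact iha ((Dvd.intro _ rfl).trans h1) h3
        · exact ihb ((Dvd.intro_left _ rfl).trans h1) h3
    obtain ⟨p, h1, h2⟩ := key m dvd_rfl h
    exact ⟨p, Or.inr (Or.inr h1), h2⟩

theorem selmer_trivial (m : ℕ) [NeZero m] (hm : GoodLevel m) (M : Type) [Field M] [NumberField M]
    [IsCyclotomicExtension {m} ℚ M] (F : IntermediateField ℚ M) (n : ℕ)
    (hF : Module.finrank ℚ F = 2 ^ n) (z : R F) (hz : z ≠ 0)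
    (hN : ∃ n : F, Algebra.norm F z = n ^ 2)
    (hloc : ∀ v : HeightOneSpectrum (𝓞 F), LocCond z (v.adicCompletion F)) :
    ∃ t : R F, z = t ^ 2 := by
  have : Fact (Irreducible (cubPoly F)) := ⟨irreducible_of_two_pow n hF⟩
  have : IsAbelianGalois ℚ M := IsCyclotomicExtension.isAbelianGalois {m} ℚ M
  have : IsAbelianGalois ℚ F := IsAbelianGalois.tower_bot ℚ F M
  have : IsGalois ℚ F := this.toIsGalois
  by_contra hsq
  have hgood : Good z := ⟨hz, hN, even_of_locCond F z hloc,
    fun v h2 h4 => inU2_of_locCond F z v h2 h4 (hloc v)⟩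
  letI := selAct F
  let A : Subgroup (R F)ˣ :=
    { carrier := {u | Good (u : R F)}
      mul_mem' := fun {a b} ha hb => by
        change Good ((a * b : (R F)ˣ) : R F)
        rw [Units.val_mul]
        exact Good.mul ha hb
      one_mem' := by
        change Good ((1 : (R F)ˣ) : R F)
        have := Good.sq (1 : R F) one_ne_zero
        rwa [one_pow] at this
      inv_mem' := fun {a} ha => by
        change Good ((a⁻¹ : (R F)ˣ) : R F)
        rw [Units.val_inv_eq_inv_val]
        exact Good.inv ha }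
  obtain ⟨z1, hz1, hz1', hfix⟩ := exists_fixed_mod (U := (R F)ˣ) (G := F ≃ₐ[ℚ] F) n
    (by rw [IsGalois.card_aut_eq_finrank, hF]) A
    (fun σ u hu => Good.mapR (hu : Good (u : R F)) (σ : F ≃+* F)) (Units.mk0 z hz) hgood
    (by
      rintro ⟨u, hu⟩
      exact hsq ⟨u, by
        have := congrArg (Units.val) hu
        rw [Units.val_pow_eq_pow_val] at this
        exact this⟩)
  have hg1 : Good (z1 : R F) := hz1
  obtain ⟨y, hy⟩ := hg1.norm
  obtain ⟨t, ht, z0, hz0⟩ := descend_class (z1 : R F) hg1.ne y hy (fun σ => by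
    obtain ⟨u, hu⟩ := hfix σ
    exact ⟨u, by
      have := congrArg (Units.val) hu
      rw [Units.val_mul, Units.val_pow_eq_pow_val] at this
      exact this⟩)
  have hmapinj := sel_mapR_injective (algebraMap ℚ F)
  have hz00 : z0 ≠ 0 := by
    rintro rfl
    rw [map_zero] at hz0
    exact mul_ne_zero hg1.ne (pow_ne_zero 2 ht) hz0.symm
  -- replace `z0` by `z0 * N(z0)`
  set ν : ℚ := nrm z0 with hν
  have hν0 : ν ≠ 0 := nrm_ne_zero hz00
  rw [nrm_eq] at hy
  have hνF : algebraMap ℚ F ν = (y * nrm t) ^ 2 := by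
    rw [hν, ← nrm_mapR, hz0, map_mul, map_pow, hy]
    ring
  have hyt : y * nrm t ≠ 0 := by
    intro h
    rw [h, zero_pow two_ne_zero] at hνF
    exact hν0 ((algebraMap ℚ F).injective (by rw [hνF, map_zero]))
  set z0' : R ℚ := z0 * trip ν 0 0 with hz0'
  set t' : R F := t * trip (y * nrm t) 0 0 with ht'
  have ht'0 : t' ≠ 0 := mul_ne_zero ht (trip_ne_zero hyt)
  have hmap : mapR (algebraMap ℚ F) z0' = z1 * t' ^ 2 := by
    have e : trip ((y * nrm t) ^ 2) 0 0 = trip (y * nrm t) 0 0 ^ 2 := by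
      rw [pow_two, pow_two, trip_mul_self]
    rw [hz0', map_mul, mapR_trip, map_zero, hz0, hνF, ht', e]
    ring
  have hz0'0 : z0' ≠ 0 := mul_ne_zero hz00 (trip_ne_zero hν0)
  have hN' : Algebra.norm ℚ z0' = (ν ^ 2) ^ 2 := by
    rw [nrm_rat, hz0', map_mul, nrm_trip, ← hν]
    ring
  -- all valuations are even
  have heven : ∀ v : HeightOneSpectrum (𝓞 (R ℚ)), IsSquare (v.valuation (R ℚ) z0') := by
    intro v
    by_cases hv : ((6 * m : ℕ) : 𝓞 (R ℚ)) ∈ v.asIdeal
    · obtain ⟨p, hp, hpv⟩ := exists_prime_mem hm v hv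
      exact even_ram z0' hz0'0 (ν ^ 2) hN' p hp v hpv
    · obtain ⟨P, hP, hPv⟩ := unram_R m M F v hv
      rw [← hPv, hmap, map_mul, map_pow]
      exact (hg1.even P hP).mul (IsSquare.sq _)
  obtain ⟨j, s, hj, hs, hzs⟩ := cub_even z0' hz0'0 heven (by
    rw [hN']
    positivity)
  have hz1s : (z1 : R F) = (pr F - 1) ^ j * (mapR (algebraMap ℚ F) s * t'⁻¹) ^ 2 := by
    have h1 : mapR (algebraMap ℚ F) z0' = (pr F - 1) ^ j * mapR (algebraMap ℚ F) s ^ 2 := by
      rw [hzs, map_mul, map_pow, map_pow, map_sub, map_one, mapR_pr]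
    rw [hmap] at h1
    rw [mul_pow, ← mul_assoc, ← h1, mul_assoc, ← mul_pow, mul_inv_cancel₀ ht'0, one_pow, mul_one]
  have hs' : mapR (algebraMap ℚ F) s * t'⁻¹ ≠ 0 := mul_ne_zero (by
    intro h
    exact hs (hmapinj (by rw [h, map_zero]))) (inv_ne_zero ht'0)
  interval_cases j
  · apply hz1'
    refine ⟨Units.mk0 _ hs', ?_⟩
    ext
    rw [Units.val_pow_eq_pow_val, hz1s, pow_zero, one_mul]
    rfl
  · obtain ⟨v, h2, h4⟩ := exists_two m (goodLevel_odd hm) M F
    have h5 : InU2 (v.valuation F) (pr F - 1) := by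
      have h6 : pr F - 1 = (z1 : R F) * ((mapR (algebraMap ℚ F) s * t'⁻¹)⁻¹) ^ 2 := by
        rw [hz1s, pow_one, mul_assoc, ← mul_pow, mul_inv_cancel₀ hs', one_pow, mul_one]
      rw [h6]
      exact (Good.mul hg1 (Good.sq _ (inv_ne_zero hs'))).two v h2 h4
    have hw2 : v.valuation F 2 = WithZero.exp (-1) := by
      have hmap2 : algebraMap (𝓞 F) F 2 = 2 := map_ofNat _ 2
      have hw2lt : v.valuation F 2 < 1 := by
        rw [← hmap2, v.valuation_lt_one_iff_mem]
        exact h2
      have h5 : ¬ v.valuation F 2 ≤ WithZero.exp (-((2 : ℕ) : ℤ)) := by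
        rw [← hmap2, v.valuation_of_algebraMap, v.intValuation_le_pow_iff_mem]
        exact h4
      have h0 : v.valuation F 2 ≠ 0 := by
        intro h0
        rw [h0] at h5
        exact h5 zero_le
      have h6 : v.valuation F 2 = WithZero.exp (WithZero.log (v.valuation F 2)) :=
        (WithZero.exp_log h0).symm
      rw [h6] at hw2lt h5 ⊢
      rw [← WithZero.exp_zero, WithZero.exp_lt_exp] at hw2lt
      rw [WithZero.exp_le_exp] at h5
      congr 1
      push Not at h5
      push_cast at h5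
      omega
    exact not_inU2 (v.valuation F) hw2 h5

end CM27
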