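import Pool.Agent.MP_9ab903_nt.SB.H

set_option autoImplicit false

open Polynomial NumberField IsDedekindDomain
open scoped Classical

namespace CM27

/-! ## [SBS-Z] the class in `R F` (file Z.lean) -/

theorem fixed_mapR (F L : Type) [Field F] [Field L] [Algebra F L] [IsGalois F L] (z : R L)
    (h : ∀ σ : L ≃ₐ[F] L, mapR (σ : L →+* L) z = z) : ∃ z0 : R F, mapR (algebraMap F L) z0 = z := by
  obtain ⟨a, b, c, rfl⟩ := trip_surj z
  have key : ∀ σ : L ≃ₐ[F] L, σ a = a ∧ σ b = b ∧ σ c = c := by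
    intro σ
    have h1 := h σ
    rw [mapR_trip] at h1
    exact trip_inj h1
  obtain ⟨a0, ha⟩ := (InfiniteGalois.mem_range_algebraMap_iff_fixed (k := F) a).2
    (fun σ => (key σ).1)
  obtain ⟨b0, hb⟩ := (InfiniteGalois.mem_range_algebraMap_iff_fixed (k := F) b).2
    (fun σ => (key σ).2.1)
  obtain ⟨c0, hc⟩ := (InfiniteGalois.mem_range_algebraMap_iff_fixed (k := F) c).2
    (fun σ => (key σ).2.2)
  exact ⟨trip a0 b0 c0, by rw [mapR_trip, ha, hb, hc]⟩

theorem exists_class (F L : Type) [Field F] [CharZero F] [Field L] [Algebra F L] [IsAlgClosure F L]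
    (c : (L ≃ₐ[F] L) → (E L).toAffine.Point) (h2 : ∀ σ, 2 • c σ = 0) (S : R L) (hS : IsUnit S)
    (h : ∀ σ : L ≃ₐ[F] L, mapR (σ : L →+* L) S = rOf (c σ) * S) :
    ∃ z : R F, z ≠ 0 ∧ (∃ n : F, Algebra.norm F z = n ^ 2) ∧ mapR (algebraMap F L) z = S ^ 2 := by
  have hchar : CharZero L := charZero_of_injective_algebraMap (algebraMap F L).injective
  have halg : Algebra.IsAlgebraic F L := IsAlgClosure.isAlgebraic
  have hnormal : Normal F L := IsAlgClosure.normal F L
  have hgal : IsGalois F L := ⟨⟩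
  obtain ⟨z, hz⟩ := fixed_mapR F L (S ^ 2) (fun σ => by
    rw [map_pow, h σ, mul_pow, sq (rOf (c σ)), rOf_tors_sq _ (h2 σ), one_mul])
  obtain ⟨n, hn⟩ := (InfiniteGalois.mem_range_algebraMap_iff_fixed (k := F)
    (Algebra.norm L S)).2 (fun σ => by
      have h1 := norm_mapR (σ : L →+* L) S
      rw [h σ, map_mul, rOf_tors_norm _ (h2 σ), one_mul] at h1
      exact h1.symm)
  refine ⟨z, ?_, ⟨n, ?_⟩, hz⟩
  · rintro rfl
    rw [map_zero] at hz
    have h1 : IsUnit (S ^ 2) := hS.pow 2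
    rw [← hz, isUnit_zero_iff] at h1
    have h3 : trip (0 : L) 0 0 = trip 1 0 0 := by
      simp only [trip, map_zero, map_one, zero_mul, add_zero]
      exact h1
    exact zero_ne_one (trip_inj h3).1
  · apply (algebraMap F L).injective
    rw [← norm_mapR, hz, map_pow, map_pow, hn]

end CM27
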